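import Pool.Agent.Helper25_XQ.Cpt

/-!
Squad XQ, Part G, module ATX: a shortest unmatched special body exists.
-/

set_option autoImplicit false

namespace Pool.Agent.XQ.H25

open MeasureTheory Complex Filter Topology Pool.Agent.H62T
open Pool.Agent.H16F (Sublin)
open Pool.Agent.AEU
open Pool.Agent.AEU.H25.Fin

/-- an unmatched special body contains an unmatched special hull of a bounded number of points:
contact points, a vertex, and a bad point for each of the finitely many possible isometries -/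
theorem reduce (vxx : VxxStatement) {P Q : Finset HP} (hP : Pg P) {h : ℂ → ℝ}
    (hsp : Special P h) (hun : ¬ ∃ g, Mat P Q g h) :
    ∃ x : Fin (P.card + 1 + Q.card ^ 2 + 1) → ℂ, (∀ i, x i ∈ Cl P) ∧
      (Special P (hf x) ∧ ¬ ∃ g, Mat P Q g (hf x)) ∧ AEU.lam (hf x) ≤ AEU.lam h := by
  classical
  obtain ⟨A, hA1, hA2, hA3⟩ := H20.contacts sup hsp.sub (touch P h) (Finset.Subset.refl _)
  have hAne : A.Nonempty := by
    have : (touch P h).Nonempty := Finset.card_pos.1 (by have := hsp.three; omega)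
    obtain ⟨s, hs⟩ := this
    obtain ⟨a, ha, _⟩ := hA3 s hs
    exact ⟨a, ha⟩
  have hAc : A.card ≤ P.card := hA1.trans (Finset.card_le_card (H20.touch_subset _ _))
  -- add the vertex
  obtain ⟨B, hB1, hB2, hB3, hB4⟩ : ∃ B : Finset ℂ, A ⊆ B ∧ B.card ≤ P.card + 1 ∧
      (∀ b ∈ B, In b h) ∧ ((∃ v, Vx P v ∧ v ∈ B) ∨ 4 ≤ (touch P h).card) := by
    rcases hsp.sp with ⟨v, hv, hvh⟩ | h4
    · refine ⟨insert v A, Finset.subset_insert _ _, ?_, ?_, Or.inl ⟨v, hv, by simp⟩⟩
      · exact (Finset.card_insert_le _ _).trans (by omega)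
      · intro b hb
        rcases Finset.mem_insert.1 hb with rfl | hb
        · exact hvh
        · exact hA2 b hb
    · exact ⟨A, Finset.Subset.refl _, by omega, hA2, Or.inr h4⟩
  -- every hull of points between `B` and `h` is special
  have key : ∀ h' : ℂ → ℝ, Sublin h' → (∀ w, h' w ≤ h w) → (∀ b ∈ B, In b h') →
      Special P h' ∧ touch P h' = touch P h := by
    intro h' hs' hle hin
    have hF' := H20.fits_of_le hle hsp.fits
    have ht : touch P h' = touch P h := by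
      refine Finset.Subset.antisymm (H20.touch_of_le hle hsp.fits) ?_
      intro s hs
      obtain ⟨a, ha, hae⟩ := hA3 s hs
      exact H20.touch_of_point (H20.touch_subset _ _ hs) hF' (hin a (hB1 ha)) hae
    refine ⟨⟨hs', hF', by rw [ht]; exact hsp.three, ?_⟩, ht⟩
    rcases hB4 with ⟨v, hv, hvB⟩ | h4
    · exact Or.inl ⟨v, hv, hin v hvB⟩
    · exact Or.inr (by rw [ht]; exact h4)
  have hBne : B.Nonempty := hAne.mono hB1
  have vcl := (vxx P hP).2.2.2.2.2.2.1
  -- bad points for the possible isometries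
  obtain ⟨G, hG1, hG2⟩ := finite_iso (Y := Q) vxx hP (H20.touch_subset P h) hsp.three
  have hbad : ∀ g : Iso2, ∃ y, In y h ∧ ∀ h' : ℂ → ℝ, (∀ w, h' w ≤ h w) → In y h' →
      ¬ Mat P Q g h' := fun g =>
    H20.bad_point sup act hsp.sub hsp.fits (fun hg => hun ⟨g, hg⟩)
  choose y hy1 hy2 using hbad
  set C : Finset ℂ := B ∪ G.image y with hC
  have hCin : ∀ c ∈ C, In c h := by
    intro c hc
    rcases Finset.mem_union.1 hc with hc | hc
    · exact hB3 c hc
    · obtain ⟨g, _, rfl⟩ := Finset.mem_image.1 hc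
      exact hy1 g
  have hCc : C.card ≤ P.card + 1 + Q.card ^ 2 + 1 := by
    have h1 : C.card ≤ B.card + (G.image y).card := Finset.card_union_le _ _
    have h2 : (G.image y).card ≤ G.card := Finset.card_image_le
    omega
  obtain ⟨z, hz1, hz2, hz3, hz4⟩ := H20.hull_of hul C
    (hBne.mono Finset.subset_union_left) hCin (P.card + 1 + Q.card ^ 2) hCc
  obtain ⟨k3, k4⟩ := key (hf z) hz3 hz2 fun b hb => hz4 b (Finset.mem_union_left _ hb)
  refine ⟨z, fun i => vcl h hsp.fits _ (hCin _ (hz1 i)), ⟨k3, ?_⟩,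
    (lam.2.1 _ _ hz3 hsp.sub hz2).1⟩
  rintro ⟨g, hg⟩
  have hgG : g ∈ G := hG2 g fun s hs => hg.mem s (by rw [k4]; exact hs)
  exact hy2 g (hf z) hz2
    (hz4 _ (Finset.mem_union_right _ (Finset.mem_image_of_mem y hgG))) hg

end Pool.Agent.XQ.H25

namespace Pool.Agent.XQ

open MeasureTheory Complex Filter Topology Pool.Agent.H62T
open Pool.Agent.H16F (Sublin)
open Pool.Agent.AEU
open Pool.Agent.AEU.H25.Fin (sup hul lam act cnt opn mixs)

/-- module ATX -/
theorem atx (vxx : VxxStatement) : AtxStatement := by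
  classical
  intro P Q hP hQ hex
  obtain ⟨h₁, hu₁⟩ := hex
  set m := P.card + 1 + Q.card ^ 2 with hm
  set K : Set (Fin (m + 1) → ℂ) :=
    {x | (∀ i, x i ∈ Cl P) ∧ (Special P (hf x) ∧ ¬ ∃ g, Mat P Q g (hf x))} with hK
  have hKc : IsCompact K := by
    set K₀ : Set (Fin (m + 1) → ℂ) := {x : Fin (m + 1) → ℂ | ∀ i, x i ∈ Cl P} ∩
        ({x : Fin (m + 1) → ℂ | 3 ≤ (touch P (hf x)).card} ∩
          {x : Fin (m + 1) → ℂ | (∃ v, Vx P v ∧ In v (hf x)) ∨ 4 ≤ (touch P (hf x)).card})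
      with hK₀
    have hK₀c : IsCompact K₀ := (H25.isCompact_tuples vxx hP m).inter_right
      ((H20.isClosed_card cnt P 3 m).inter (H25.isClosed_special vxx hP m))
    have hF : ∀ x ∈ K₀, Fits P (hf x) := fun x hx => ((mixs P).2.2 m x hx.1).1
    have e : K = {x | x ∈ K₀ ∧ ¬ ∃ g, Mat P Q g (hf x)} := by
      ext x
      constructor
      · rintro ⟨h1, h2, h3⟩
        exact ⟨⟨h1, h2.three, h2.sp⟩, h3⟩
      · rintro ⟨h1, h3⟩
        exact ⟨h1.1, ⟨(hul m x).1, hF x h1, h1.2.1, h1.2.2⟩, h3⟩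
    rw [e]
    refine H20.compact_not hK₀c hF (fun h => ∃ g, Mat P Q g h) ?_
    rintro x ⟨g, hg⟩
    filter_upwards [H20.matched_nhds opn cnt hg] with y hy hFy
    exact ⟨g, hy hFy⟩
  have hKne : K.Nonempty := by
    obtain ⟨x, hx1, hx2, _⟩ := H25.reduce vxx hP hu₁.1 hu₁.2
    exact ⟨x, hx1, hx2⟩
  obtain ⟨x, hx, hmin⟩ := H20.exists_min cnt hKc hKne
  refine ⟨hf x, hx.2, fun h' hu' => ?_⟩
  obtain ⟨y, hy1, hy2, hy3⟩ := H25.reduce vxx hP hu'.1 hu'.2
  exact (hmin y ⟨hy1, hy2⟩).trans hy3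

end Pool.Agent.XQ
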