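import Pool.Agent.Helper16_XQ.StmtG
import Pool.Agent.Helper20_AEU.Tools
import Pool.Agent.Helper25_AEU.Final0

/-!
Squad XQ, Part G: common tools for the compactness modules ATX and UTT.
-/

set_option autoImplicit false

namespace Pool.Agent.XQ.H25

open MeasureTheory Complex Filter Topology Pool.Agent.H62T
open Pool.Agent.H16F (Sublin)
open Pool.Agent.AEU
open Pool.Agent.AEU.H25.Fin

/-- among three sides there are two which are not parallel -/
theorem exists_np (vxx : VxxStatement) {X S : Finset HP} (hX : Pg X) (hS : S ⊆ X)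
    (h3 : 3 ≤ S.card) : ∃ s ∈ S, ∃ t ∈ S, s ≠ t ∧ dt s.1 t.1 ≠ 0 := by
  classical
  obtain ⟨_, _, _, _, _, _, _, _, _, hpar, _⟩ := vxx X hX
  obtain ⟨a, ha, b, hb, c, hc, hab, hac, hbc⟩ := Finset.two_lt_card.1 (by omega : 2 < S.card)
  by_contra hcon
  push Not at hcon
  have h1 := hpar a (hS ha) b (hS hb) hab (hcon a ha b hb hab)
  have h2 := hpar a (hS ha) c (hS hc) hac (hcon a ha c hc hac)
  have h3 := hpar b (hS hb) c (hS hc) hbc (hcon b hb c hc hbc)
  have h4 : a.1 = 0 := by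
    have : -a.1 = a.1 := by
      rw [← h2, h3, h1]
      simp
    have h5 : a.1 + a.1 = 0 := by
      nth_rewrite 1 [← this]
      simp
    have h6 : (2 : ℂ) * a.1 = 0 := by rw [two_mul]; exact h5
    simpa using h6
  have h5 := hX.unit a (hS ha)
  rw [h4] at h5
  simp at h5

theorem abs_ip_lt {u v : ℂ} (hu : ‖u‖ = 1) (hv : ‖v‖ = 1) (h : dt u v ≠ 0) : |ip u v| < 1 := by
  have h1 : ip u v ^ 2 + dt u v ^ 2 = 1 := by
    have e1 : u.re ^ 2 + u.im ^ 2 = 1 := by
      have := Complex.sq_norm u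
      rw [hu, Complex.normSq_apply] at this
      nlinarith
    have e2 : v.re ^ 2 + v.im ^ 2 = 1 := by
      have := Complex.sq_norm v
      rw [hv, Complex.normSq_apply] at this
      nlinarith
    have e3 : ip u v ^ 2 + dt u v ^ 2 = (u.re ^ 2 + u.im ^ 2) * (v.re ^ 2 + v.im ^ 2) := by
      simp only [ip, dt]
      ring
    rw [e3, e1, e2]; norm_num
  have h2 : 0 < dt u v ^ 2 := by positivity
  exact abs_lt_of_sq_lt_sq (by nlinarith) (by norm_num)

/-- finitely many isometries map three sides to sides -/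
theorem finite_iso (vxx : VxxStatement) {X Y S : Finset HP} (hX : Pg X) (hS : S ⊆ X)
    (h3 : 3 ≤ S.card) : ∃ G : Finset Iso2, G.card ≤ Y.card ^ 2 ∧
      ∀ g, (∀ s ∈ S, mv g s ∈ Y) → g ∈ G := by
  classical
  obtain ⟨s, hs, t, ht, hst, hdt⟩ := exists_np vxx hX hS h3
  have hlt := abs_ip_lt (hX.unit s (hS hs)) (hX.unit t (hS ht)) hdt
  set A : Set Iso2 := {g | ∀ s ∈ S, mv g s ∈ Y} with hA
  have hinj : Set.InjOn (fun g : Iso2 => (mv g s, mv g t)) A := by
    intro g _ g' _ he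
    simp only [Prod.mk.injEq] at he
    exact uni.1 g g' s t (hX.unit s (hS hs)) (hX.unit t (hS ht)) hlt he.1 he.2
  have hmaps : Set.MapsTo (fun g : Iso2 => (mv g s, mv g t)) A ((Y ×ˢ Y : Finset (HP × HP)) : Set _) := by
    intro g hg
    simp only [Finset.coe_product, Set.mem_prod, Finset.mem_coe]
    exact ⟨hg s hs, hg t ht⟩
  have hfin : A.Finite := Set.Finite.of_injOn hmaps hinj (Finset.finite_toSet _)
  refine ⟨hfin.toFinset, ?_, fun g hg => by simpa [hA] using hg⟩
  have h1 : hfin.toFinset.card ≤ (Y ×ˢ Y).card := by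
    refine Finset.card_le_card_of_injOn (fun g : Iso2 => (mv g s, mv g t)) ?_ ?_
    · intro g hg
      have := hmaps (by simpa using hg)
      simpa using this
    · intro g hg g' hg' he
      exact hinj (by simpa using hg) (by simpa using hg') he
  rw [Finset.card_product] at h1
  rw [sq]
  exact h1

theorem isCompact_tuples (vxx : VxxStatement) {X : Finset HP} (hX : Pg X) (m : ℕ) :
    IsCompact {x : Fin (m + 1) → ℂ | ∀ i, x i ∈ Cl X} := by
  obtain ⟨_, _, _, _, _, _, _, _, hc, _⟩ := vxx X hX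
  have h1 := isCompact_univ_pi (fun _ : Fin (m + 1) => hc)
  have h2 : {x : Fin (m + 1) → ℂ | ∀ i, x i ∈ Cl X} = Set.pi Set.univ fun _ => Cl X := by
    ext x
    simp [Set.mem_pi]
  rw [h2]
  exact h1

theorem isClosed_special (vxx : VxxStatement) {P : Finset HP} (hP : Pg P) (m : ℕ) :
    IsClosed {x : Fin (m + 1) → ℂ | (∃ v, Vx P v ∧ In v (hf x)) ∨
      4 ≤ (touch P (hf x)).card} := by
  classical
  have h1 : IsClosed {x : Fin (m + 1) → ℂ | ∃ v, Vx P v ∧ In v (hf x)} := by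
    have : {x : Fin (m + 1) → ℂ | ∃ v, Vx P v ∧ In v (hf x)} =
        ⋃ p ∈ (P ×ˢ P).filter (fun p => VxOf P p.1 p.2 (vx p.1 p.2)),
          {x : Fin (m + 1) → ℂ | In (vx p.1 p.2) (hf x)} := by
      ext x
      simp only [Set.mem_ofPred_eq, Set.mem_iUnion, Finset.mem_filter, Finset.mem_product,
        exists_prop]
      constructor
      · rintro ⟨v, ⟨s, t, hv⟩, hin⟩
        have e := ((vxx P hP).2.2.2.2.1 s t v hv).1
        refine ⟨(s, t), ⟨⟨hv.mem₁, hv.mem₂⟩, ?_⟩, ?_⟩
        · rw [← e]; exact hv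
        · rw [← e]; exact hin
      · rintro ⟨p, ⟨_, hv⟩, hin⟩
        exact ⟨_, ⟨p.1, p.2, hv⟩, hin⟩
    rw [this]
    refine isClosed_biUnion_finset fun p _ => ?_
    have h2 : {x : Fin (m + 1) → ℂ | In (vx p.1 p.2) (hf x)} =
        ⋂ w : ℂ, {x : Fin (m + 1) → ℂ | ip w (vx p.1 p.2) ≤ hf x w} := by
      ext x
      simp [In]
    rw [h2]
    exact isClosed_iInter fun w => isClosed_le continuous_const ((cnt m).1 w)
  exact h1.union (H20.isClosed_card cnt P 4 m)

end Pool.Agent.XQ.H25
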