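import Pool.Agent.Helper35_XQ.Stmt
import Pool.Agent.Helper69_AEU3.Geo

/-!
Squad XQ (MP_5b0138_an), Part A2, module GI_GEO (helper25): geometry of the loops cut into short
blocks for the isosceles triangle.
-/

set_option autoImplicit false

namespace Pool.Agent.XQ.GI

open MeasureTheory Complex Filter Topology Pool.Agent.H62T Pool.Agent.H60K

namespace H25G

theorem ub {p q : ℝ} (h : p ^ 2 + q ^ 2 ≤ 1) (v w : ℂ) :
    p * (v.re - w.re) + q * (v.im - w.im) ≤ ‖v - w‖ := by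
  have h1 : (p * (v.re - w.re) + q * (v.im - w.im)) ^ 2 ≤ ‖v - w‖ ^ 2 := by
    rw [Complex.sq_norm, Complex.normSq_apply, Complex.sub_re, Complex.sub_im]
    have h2 : 0 ≤ (1 - (p ^ 2 + q ^ 2)) *
        ((v.re - w.re) * (v.re - w.re) + (v.im - w.im) * (v.im - w.im)) := by
      have h3 : 0 ≤ 1 - (p ^ 2 + q ^ 2) := by linarith
      have h4 : 0 ≤ (v.re - w.re) * (v.re - w.re) + (v.im - w.im) * (v.im - w.im) := by
        linarith only [mul_self_nonneg (v.re - w.re), mul_self_nonneg (v.im - w.im)]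
      exact mul_nonneg h3 h4
    have h5 := sq_nonneg (p * (v.im - w.im) - q * (v.re - w.re))
    linarith only [h2, h5]
  exact (abs_le_of_sq_le_sq' h1 (norm_nonneg _)).2

theorem ip0 (α : ℝ) (x : ℂ) : ip (uI α 0) x = -Real.sin α * x.re + Real.cos α * x.im := by
  simp [uI, ip]

theorem ip1 (α : ℝ) (x : ℂ) : ip (uI α 1) x = -x.im := by
  simp [uI, ip]

theorem ip2 (α : ℝ) (x : ℂ) : ip (uI α 2) x = Real.sin α * x.re + Real.cos α * x.im := by
  simp [uI, ip]

theorem nu (α : ℝ) (s : Fin 3) : ‖uI α s‖ = 1 := by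
  have h := Real.sin_sq_add_cos_sq α
  have key : ∀ z : ℂ, z.re ^ 2 + z.im ^ 2 = 1 → ‖z‖ = 1 := by
    intro z hz
    have h1 : ‖z‖ ^ 2 = 1 := by
      rw [Complex.sq_norm, Complex.normSq_apply]
      linarith [hz]
    have h2 := norm_nonneg z
    nlinarith only [h1, h2]
  apply key
  fin_cases s
  · simp [uI]
  · simp [uI]
  · simp [uI]

theorem hI0 (α b : ℝ) : hI α b 0 = b / 2 * Real.sin α := by simp [hI]
theorem hI1 (α b : ℝ) : hI α b 1 = 0 := by simp [hI]
theorem hI2 (α b : ℝ) : hI α b 2 = b / 2 * Real.sin α := by simp [hI]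

theorem lq_eq (α b : ℝ) (hc : Real.cos α ≠ 0) :
    Lq α b = b * Real.sin α * (3 - 4 * Real.cos α ^ 2) := by
  unfold Lq
  rw [Real.cos_three_mul, Real.tan_eq_sin_div_cos]
  field_simp
  ring

/-- pattern with two visits of the same slanted side around the other one -/
theorem cert {s c H δ σ : ℝ} (hs0 : 0 < s) (hc0 : 0 < c) (hc2 : c ≤ 1 / 2) (hsc : s ^ 2 + c ^ 2 = 1)
    (hδ : 0 < δ) (hσ : σ ^ 2 = 1) (y p q r : ℂ) (hy : 0 ≤ σ * y.re) (hy' : y.im < δ)
    (hp : H - δ ≤ -(σ * s) * p.re + c * p.im) (hq : H - δ ≤ σ * s * q.re + c * q.im)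
    (hr : H - δ ≤ -(σ * s) * r.re + c * r.im) :
    (6 - 8 * c ^ 2) * H - 9 * δ ≤ ‖y - p‖ + ‖p - q‖ + ‖q - r‖ + ‖r - y‖ := by
  set C : ℝ := 1 - 2 * c ^ 2 with hC
  have hc3 : c ^ 2 ≤ 1 / 4 := by nlinarith only [hc2, hc0]
  have hC1 : 1 / 2 ≤ C := by rw [hC]; linarith
  have hC2 : C ≤ 1 := by rw [hC]; nlinarith
  -- the first unit vector
  have n1 : (σ * s * (1 - 2 * C)) ^ 2 + (c * (1 + 2 * C)) ^ 2 ≤ 1 := by
    have h1 : (σ * s * (1 - 2 * C)) ^ 2 = s ^ 2 * (1 - 2 * C) ^ 2 := by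
      calc (σ * s * (1 - 2 * C)) ^ 2 = σ ^ 2 * (s ^ 2 * (1 - 2 * C) ^ 2) := by ring
        _ = _ := by rw [hσ, one_mul]
    have h2 : s ^ 2 = 1 - c ^ 2 := by linarith only [hsc]
    rw [h1, h2, hC]
    apply le_of_eq
    ring
  have n2 : (σ * s) ^ 2 + c ^ 2 ≤ 1 := by
    have h1 : (σ * s) ^ 2 = s ^ 2 := by rw [mul_pow, hσ, one_mul]
    rw [h1]; linarith
  have b1 := ub n1 p y
  have b2 := ub n2 q p
  have b3 := ub n2 q r
  have b4 := ub n1 r y
  rw [norm_sub_rev p y] at b1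
  rw [norm_sub_rev q p] at b2
  -- the value at `y`
  have h1 : σ * s * (1 - 2 * C) * y.re ≤ 0 := by
    have h3 : 0 ≤ s * (2 * C - 1) := mul_nonneg hs0.le (by linarith)
    have h4 := mul_nonneg h3 hy
    linarith only [h4]
  have h2 : c * (1 + 2 * C) * y.im ≤ 3 / 2 * δ := by
    have h3 : c * (1 + 2 * C) ≤ 3 / 2 := by nlinarith only [hc2, hc0]
    have h3' : 0 ≤ c * (1 + 2 * C) := mul_nonneg hc0.le (by linarith)
    calc c * (1 + 2 * C) * y.im ≤ c * (1 + 2 * C) * δ := mul_le_mul_of_nonneg_left hy'.le h3'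
      _ ≤ 3 / 2 * δ := mul_le_mul_of_nonneg_right h3 hδ.le
  have hp' := mul_le_mul_of_nonneg_left hp (by linarith : (0 : ℝ) ≤ 2 * C)
  have hr' := mul_le_mul_of_nonneg_left hr (by linarith : (0 : ℝ) ≤ 2 * C)
  have e1 : (6 - 8 * c ^ 2) * H = (4 * C + 2) * H := by rw [hC]; ring
  rw [e1]
  have e2 : 2 * C * (H - δ) + 2 * C * (H - δ) + 2 * (H - δ) - 2 * (3 / 2 * δ)
      ≤ ‖y - p‖ + ‖p - q‖ + ‖q - r‖ + ‖r - y‖ := by
    linarith only [b1, b2, b3, b4, h1, h2, hp', hr', hq]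
  have e3 : C * δ ≤ δ := by nlinarith
  linarith only [e2, e3]

theorem db1 {s c H δ : ℝ} (hc0 : 0 < c) (hc2 : c ≤ 1 / 2) (hsc : s ^ 2 + c ^ 2 = 1)
    (hδ : 0 < δ) (p q p' r : ℂ) (hp : p.im < δ) (hp' : p'.im < δ)
    (hq : H - δ ≤ -s * q.re + c * q.im) (hr : H - δ ≤ s * r.re + c * r.im) :
    4 * H - 6 * δ ≤ ‖p - q‖ + ‖q - p'‖ + ‖p' - r‖ + ‖r - p‖ := by
  have n1 : (-s) ^ 2 + c ^ 2 ≤ 1 := by linarith only [hsc]
  have n2 : s ^ 2 + c ^ 2 ≤ 1 := hsc.le
  have b1 := ub n1 q p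
  have b2 := ub n1 q p'
  have b3 := ub n2 r p'
  have b4 := ub n2 r p
  rw [norm_sub_rev q p] at b1
  rw [norm_sub_rev r p'] at b3
  have h1 : c * p.im ≤ 1 / 2 * δ := by
    calc c * p.im ≤ c * δ := mul_le_mul_of_nonneg_left hp.le hc0.le
      _ ≤ 1 / 2 * δ := mul_le_mul_of_nonneg_right hc2 hδ.le
  have h2 : c * p'.im ≤ 1 / 2 * δ := by
    calc c * p'.im ≤ c * δ := mul_le_mul_of_nonneg_left hp'.le hc0.le
      _ ≤ 1 / 2 * δ := mul_le_mul_of_nonneg_right hc2 hδ.le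
  linarith only [b1, b2, b3, b4, h1, h2, hq, hr]

theorem db0 {s c H δ σ : ℝ} (hc0 : 0 < c) (hc2 : c ≤ 1 / 2) (hsc : s ^ 2 + c ^ 2 = 1)
    (hδ : 0 < δ) (hσ : σ ^ 2 = 1) (p q p' r : ℂ) (hq : q.im < δ)
    (hp : H - δ ≤ -(σ * s) * p.re + c * p.im) (hp' : H - δ ≤ -(σ * s) * p'.re + c * p'.im)
    (hr : H - δ ≤ σ * s * r.re + c * r.im) :
    4 * H - 6 * δ ≤ ‖p - q‖ + ‖q - p'‖ + ‖p' - r‖ + ‖r - p‖ := by
  have n1 : (0 : ℝ) ^ 2 + (2 * c) ^ 2 ≤ 1 := by nlinarith
  have n2 : (σ * s) ^ 2 + c ^ 2 ≤ 1 := by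
    have h1 : (σ * s) ^ 2 = s ^ 2 := by rw [mul_pow, hσ, one_mul]
    rw [h1]; linarith
  have b1 := ub n1 p q
  have b2 := ub n1 p' q
  have b3 := ub n2 r p'
  have b4 := ub n2 r p
  rw [norm_sub_rev p' q] at b2
  rw [norm_sub_rev r p'] at b3
  have h1 : c * q.im ≤ 1 / 2 * δ := by
    calc c * q.im ≤ c * δ := mul_le_mul_of_nonneg_left hq.le hc0.le
      _ ≤ 1 / 2 * δ := mul_le_mul_of_nonneg_right hc2 hδ.le
  linarith only [b1, b2, b3, b4, h1, hp, hp', hr]

section comb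
variable {n : ℕ} [NeZero n]

/-- the pattern `0 2 0 2` seen from another block -/
theorem turn (B : Fin n → Finset (Fin 3)) (j : Fin n) (a b c d : ℕ) (h0a : 0 < a) (hab : a < b)
    (hbc : b < c) (hcn : c < n) (hd : d < n) (h0 : 0 ∈ B j) (ha : 2 ∈ B (j + Fin.ofNat n a))
    (hb : 0 ∈ B (j + Fin.ofNat n b)) (hc : 2 ∈ B (j + Fin.ofNat n c)) :
    ∃ (s t : Fin 3) (o1 o2 o3 o4 : ℕ), ((s = 0 ∧ t = 2) ∨ (s = 2 ∧ t = 0)) ∧ o1 ≤ o2 ∧ o2 ≤ o3 ∧
      o3 ≤ o4 ∧ o4 ≤ n ∧ s ∈ B (j + Fin.ofNat n d + Fin.ofNat n o1) ∧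
      t ∈ B (j + Fin.ofNat n d + Fin.ofNat n o2) ∧ s ∈ B (j + Fin.ofNat n d + Fin.ofNat n o3) ∧
      t ∈ B (j + Fin.ofNat n d + Fin.ofNat n o4) := by
  have up : ∀ p, d ≤ p → j + Fin.ofNat n d + Fin.ofNat n (p - d) = j + Fin.ofNat n p := by
    intro p hp
    rw [add_assoc]
    congr 1
    apply Fin.ext
    simp only [Fin.ofNat, Fin.val_add]
    rw [← Nat.add_mod]
    congr 1
    omega
  have dn : ∀ p, p ≤ d → j + Fin.ofNat n d + Fin.ofNat n (n - d + p) = j + Fin.ofNat n p := by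
    intro p hp
    rw [add_assoc]
    congr 1
    apply Fin.ext
    simp only [Fin.ofNat, Fin.val_add]
    rw [← Nat.add_mod]
    have : d + (n - d + p) = p + n := by omega
    rw [this, Nat.add_mod_right]
  have z : j + Fin.ofNat n 0 = j := by
    rw [Pool.Agent.H60K.H69.ofNat_zero', add_zero]
  have h0' : 0 ∈ B (j + Fin.ofNat n 0) := by rw [z]; exact h0
  rcases Nat.eq_zero_or_pos d with hd0 | hd0
  · refine ⟨0, 2, 0 - d, a - d, b - d, c - d, Or.inl ⟨rfl, rfl⟩, by omega, by omega, by omega,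
      by omega, ?_, ?_, ?_, ?_⟩
    · rw [up 0 (by omega)]; exact h0'
    · rw [up a (by omega)]; exact ha
    · rw [up b (by omega)]; exact hb
    · rw [up c (by omega)]; exact hc
  rcases Nat.lt_or_ge a d with h1 | h1
  · rcases Nat.lt_or_ge b d with h2 | h2
    · rcases Nat.lt_or_ge c d with h3 | h3
      · refine ⟨0, 2, n - d + 0, n - d + a, n - d + b, n - d + c, Or.inl ⟨rfl, rfl⟩, by omega,
          by omega, by omega, by omega, ?_, ?_, ?_, ?_⟩
        · rw [dn 0 (by omega)]; exact h0'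
        · rw [dn a (by omega)]; exact ha
        · rw [dn b (by omega)]; exact hb
        · rw [dn c (by omega)]; exact hc
      · refine ⟨2, 0, c - d, n - d + 0, n - d + a, n - d + b, Or.inr ⟨rfl, rfl⟩, by omega,
          by omega, by omega, by omega, ?_, ?_, ?_, ?_⟩
        · rw [up c (by omega)]; exact hc
        · rw [dn 0 (by omega)]; exact h0'
        · rw [dn a (by omega)]; exact ha
        · rw [dn b (by omega)]; exact hb
    · refine ⟨0, 2, b - d, c - d, n - d + 0, n - d + a, Or.inl ⟨rfl, rfl⟩, by omega,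
          by omega, by omega, by omega, ?_, ?_, ?_, ?_⟩
      · rw [up b (by omega)]; exact hb
      · rw [up c (by omega)]; exact hc
      · rw [dn 0 (by omega)]; exact h0'
      · rw [dn a (by omega)]; exact ha
  · refine ⟨2, 0, a - d, b - d, c - d, n - d + 0, Or.inr ⟨rfl, rfl⟩, by omega,
          by omega, by omega, by omega, ?_, ?_, ?_, ?_⟩
    · rw [up a (by omega)]; exact ha
    · rw [up b (by omega)]; exact hb
    · rw [up c (by omega)]; exact hc
    · rw [dn 0 (by omega)]; exact h0'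

end comb

theorem cases3 (p q r : Fin 3) (hpq : p ≠ q) (hqr : q ≠ r) (hrp : r ≠ p) :
    (p = 0 ∧ q = 1 ∧ r = 2) ∨ (p = 0 ∧ q = 2 ∧ r = 1) ∨ (p = 1 ∧ q = 0 ∧ r = 2) ∨
        (p = 1 ∧ q = 2 ∧ r = 0) ∨ (p = 2 ∧ q = 0 ∧ r = 1) ∨ (p = 2 ∧ q = 1 ∧ r = 0) := by
  fin_cases p <;> fin_cases q <;> fin_cases r <;> simp at hpq hqr hrp ⊢

end H25G

open H25G in
/-- module GI_GEO -/
theorem geoI : GeoStatement := by
  intro α b e hα1 hα2 hb he
  have hpi := Real.pi_pos
  have hc0 : 0 < Real.cos α := Real.cos_pos_of_mem_Ioo ⟨by linarith, hα2⟩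
  have hs0 : 0 < Real.sin α := Real.sin_pos_of_pos_of_lt_pi (by linarith) (by linarith)
  have hc2 : Real.cos α ≤ 1 / 2 := by
    rw [← Real.cos_pi_div_three]
    exact Real.cos_le_cos_of_nonneg_of_le_pi (by positivity) (by linarith) hα1
  have hsc := Real.sin_sq_add_cos_sq α
  have hLq := lq_eq α b hc0.ne'
  refine ⟨e * Real.cos α / 100, by positivity, fun δ hδ hδ' => ?_⟩
  have hδe : δ < e / 200 := by
    have : e * Real.cos α ≤ e * (1 / 2) := mul_le_mul_of_nonneg_left hc2 he.le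
    linarith
  intro n _ x B hV hC hSh
  set bb : Fin n → ℝ := fun j => bl (uI α) (hI α b) (B j) (x j) (x (j + 1)) with hbb
  have hnb : ∀ j, ‖x j - x (j + 1)‖ ≤ bb j := fun j =>
    Pool.Agent.H60K.H69.norm_le_bl _ _ (nu α) _ _ _
  have hbδ : ∀ j, bb j < δ := hSh
  have hLn : Ln (uI α) (hI α b) x B = ∑ j, bb j := rfl
  rw [hLn]
  -- visits
  have hv0 : ∀ j, 0 ∈ B j → b / 2 * Real.sin α - δ ≤ -Real.sin α * (x j).re
      + Real.cos α * (x j).im ∧ b / 2 * Real.sin α - δ ≤ -Real.sin α * (x (j + 1)).re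
      + Real.cos α * (x (j + 1)).im := by
    intro j hj
    have h := Pool.Agent.H60K.H69.vis_le (uI α) (hI α b) (nu α) (B j) 0 hj (x j) (x (j + 1))
    rw [ip0, ip0, hI0] at h
    have h5 := hbδ j
    simp only [hbb] at h5
    constructor <;> linarith only [h5, h.1, h.2]
  have hv2 : ∀ j, 2 ∈ B j → b / 2 * Real.sin α - δ ≤ Real.sin α * (x j).re
      + Real.cos α * (x j).im ∧ b / 2 * Real.sin α - δ ≤ Real.sin α * (x (j + 1)).re
      + Real.cos α * (x (j + 1)).im := by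
    intro j hj
    have h := Pool.Agent.H60K.H69.vis_le (uI α) (hI α b) (nu α) (B j) 2 hj (x j) (x (j + 1))
    rw [ip2, ip2, hI2] at h
    have h5 := hbδ j
    simp only [hbb] at h5
    constructor <;> linarith only [h5, h.1, h.2]
  have hv1 : ∀ j, 1 ∈ B j → (x j).im < δ := by
    intro j hj
    have h := Pool.Agent.H60K.H69.vis_le (uI α) (hI α b) (nu α) (B j) 1 hj (x j) (x (j + 1))
    rw [ip1, ip1, hI1] at h
    have h5 := hbδ j
    simp only [hbb] at h5
    linarith [h.1]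
  obtain ⟨k, hk⟩ := hV.1 1 (by simp)
  have hky := hv1 k hk
  constructor
  · intro hno
    rw [hLq]
    rw [not_and_or] at hno
    rcases hno with hAd | hNl
    · -- a point with the wrong sign
      have key : ∀ i : Fin n, b / 2 * Real.sin α - δ ≤ Real.cos α * (x i).im →
          b * Real.sin α * (3 - 4 * Real.cos α ^ 2) - e ≤ ∑ j, bb j := by
        intro i hi
        have h1 := Pool.Agent.H60K.H69.cyc2 x bb hnb i k
        have h2 := ub (p := 0) (q := 1) (by norm_num) (x i) (x k)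
        have h3 : 2 * ((x i).im - (x k).im) ≤ ∑ j, bb j := by linarith
        have h4 := mul_le_mul_of_nonneg_left h3 hc0.le
        have h5 : Real.cos α * (x k).im ≤ 1 / 2 * δ := by
          calc Real.cos α * (x k).im ≤ Real.cos α * δ := mul_le_mul_of_nonneg_left hky.le hc0.le
            _ ≤ 1 / 2 * δ := mul_le_mul_of_nonneg_right hc2 hδ.le
        have h6 : b * Real.sin α - 3 * δ ≤ Real.cos α * ∑ j, bb j := by linarith
        have h7 : Real.cos α * (3 - 4 * Real.cos α ^ 2) ≤ 1 := by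
          linarith only [mul_nonneg (by linarith : (0 : ℝ) ≤ Real.cos α + 1)
            (sq_nonneg (2 * Real.cos α - 1))]
        have h8 : b * Real.sin α * (Real.cos α * (3 - 4 * Real.cos α ^ 2)) ≤ b * Real.sin α * 1 :=
          mul_le_mul_of_nonneg_left h7 (by positivity)
        have h9 : Real.cos α * (b * Real.sin α * (3 - 4 * Real.cos α ^ 2) - e)
            ≤ Real.cos α * ∑ j, bb j := by
          linarith only [hδ, hδ', hi, h4, h5, h8]
        exact le_of_mul_le_mul_left h9 hc0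
      by_contra hcon
      apply hAd
      refine ⟨fun j hj => ?_, fun j hj => ?_⟩
      · have h := hv0 j hj
        constructor
        · by_contra h1
          rw [not_lt] at h1
          exact hcon (key j (by linarith only [h.1, mul_nonneg hs0.le h1]))
        · by_contra h1
          rw [not_lt] at h1
          exact hcon (key (j + 1) (by linarith only [h.2, mul_nonneg hs0.le h1]))
      · have h := hv2 j hj
        constructor
        · by_contra h1
          rw [not_le] at h1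
          exact hcon (key j (by linarith only [h.1, mul_nonneg hs0.le (neg_nonneg.2 h1.le)]))
        · by_contra h1
          rw [not_le] at h1
          exact hcon (key (j + 1) (by linarith only [h.2, mul_nonneg hs0.le (neg_nonneg.2 h1.le)]))
    · -- the pattern `0 2 0 2`
      unfold Nl at hNl
      push Not at hNl
      obtain ⟨j, a, b', c, h0a, hab, hbc, hcn, h0, ha, hb', hc⟩ := hNl
      obtain ⟨d, hd, rfl⟩ := Pool.Agent.H60K.H69.exists_shift j k
      obtain ⟨s, t, o1, o2, o3, o4, hst, h12, h23, h34, h4n, g1, g2, g3, g4⟩ :=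
        turn B j a b' c d h0a hab hbc hcn hd h0 ha hb' hc
      have e1 : b * Real.sin α * (3 - 4 * Real.cos α ^ 2)
          = (6 - 8 * Real.cos α ^ 2) * (b / 2 * Real.sin α) := by ring
      rw [e1]
      -- the two patterns
      have k0 : ∀ p q r : ℕ, p ≤ q → q ≤ r → r ≤ n → 0 ≤ (x (j + Fin.ofNat n d)).re →
          0 ∈ B (j + Fin.ofNat n d + Fin.ofNat n p) → 2 ∈ B (j + Fin.ofNat n d + Fin.ofNat n q) →
          0 ∈ B (j + Fin.ofNat n d + Fin.ofNat n r) →
          (6 - 8 * Real.cos α ^ 2) * (b / 2 * Real.sin α) - e ≤ ∑ j, bb j := by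
        intro p q r hpq hqr hrn hre hp hq hr
        have h1 := Pool.Agent.H60K.H69.cyc4 x bb hnb (j + Fin.ofNat n d) p q r hpq hqr hrn
        have h2 := cert (σ := 1) hs0 hc0 hc2 hsc hδ (by norm_num) (x (j + Fin.ofNat n d)) _ _ _
          (by linarith) hky (by rw [one_mul]; exact (hv0 _ hp).1)
          (by rw [one_mul]; exact (hv2 _ hq).1) (by rw [one_mul]; exact (hv0 _ hr).1)
        linarith only [hδ, hδe, h1, h2]
      have k2 : ∀ p q r : ℕ, p ≤ q → q ≤ r → r ≤ n → (x (j + Fin.ofNat n d)).re ≤ 0 →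
          2 ∈ B (j + Fin.ofNat n d + Fin.ofNat n p) → 0 ∈ B (j + Fin.ofNat n d + Fin.ofNat n q) →
          2 ∈ B (j + Fin.ofNat n d + Fin.ofNat n r) →
          (6 - 8 * Real.cos α ^ 2) * (b / 2 * Real.sin α) - e ≤ ∑ j, bb j := by
        intro p q r hpq hqr hrn hre hp hq hr
        have h1 := Pool.Agent.H60K.H69.cyc4 x bb hnb (j + Fin.ofNat n d) p q r hpq hqr hrn
        have h2 := cert (σ := -1) (H := b / 2 * Real.sin α) hs0 hc0 hc2 hsc hδ (by norm_num)
          (x (j + Fin.ofNat n d)) (x (j + Fin.ofNat n d + Fin.ofNat n p))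
          (x (j + Fin.ofNat n d + Fin.ofNat n q)) (x (j + Fin.ofNat n d + Fin.ofNat n r))
          (by linarith) hky (by have := (hv2 _ hp).1; linarith only [this])
          (by have := (hv0 _ hq).1; linarith only [this]) (by have := (hv2 _ hr).1; linarith only [this])
        linarith only [hδ, hδe, h1, h2]
      rcases hst with ⟨rfl, rfl⟩ | ⟨rfl, rfl⟩
      · rcases le_total 0 (x (j + Fin.ofNat n d)).re with hre | hre
        · exact k0 o1 o2 o3 h12 h23 (by omega) hre g1 g2 g3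
        · exact k2 o2 o3 o4 h23 h34 h4n hre g2 g3 g4
      · rcases le_total 0 (x (j + Fin.ofNat n d)).re with hre | hre
        · exact k0 o2 o3 o4 h23 h34 h4n hre g2 g3 g4
        · exact k2 o1 o2 o3 h12 h23 (by omega) hre g1 g2 g3
  · rintro ⟨p, q, r, j, a, b', c, hpq, hqr, hrp, hab, hbc, hcn, hp, hq, hp', hr⟩
    have h1 := Pool.Agent.H60K.H69.cyc4 x bb hnb j a b' c hab hbc hcn
    have e1 : La α b = 4 * (b / 2 * Real.sin α) := by unfold La; ring
    rw [e1]
    -- reversed order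
    have h1' : ‖x j - x (j + Fin.ofNat n c)‖ + ‖x (j + Fin.ofNat n c) - x (j + Fin.ofNat n b')‖
        + ‖x (j + Fin.ofNat n b') - x (j + Fin.ofNat n a)‖ + ‖x (j + Fin.ofNat n a) - x j‖
        ≤ ∑ i, bb i := by
      rw [norm_sub_rev (x j) (x (j + Fin.ofNat n c)),
        norm_sub_rev (x (j + Fin.ofNat n c)) (x (j + Fin.ofNat n b')),
        norm_sub_rev (x (j + Fin.ofNat n b')) (x (j + Fin.ofNat n a)),
        norm_sub_rev (x (j + Fin.ofNat n a)) (x j)]
      linarith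
    rcases cases3 p q r hpq hqr hrp with ⟨rfl, rfl, rfl⟩ | ⟨rfl, rfl, rfl⟩ | ⟨rfl, rfl, rfl⟩ | ⟨rfl, rfl, rfl⟩ |
      ⟨rfl, rfl, rfl⟩ | ⟨rfl, rfl, rfl⟩
    · have h2 := db0 (σ := 1) hc0 hc2 hsc hδ (by norm_num) (x j) _ (x (j + Fin.ofNat n b')) _
        (hv1 _ hq) (by rw [one_mul]; exact (hv0 _ hp).1) (by rw [one_mul]; exact (hv0 _ hp').1)
        (by rw [one_mul]; exact (hv2 _ hr).1)
      linarith
    · have h2 := db0 (σ := 1) hc0 hc2 hsc hδ (by norm_num) (x j) _ (x (j + Fin.ofNat n b')) _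
        (hv1 _ hr) (by rw [one_mul]; exact (hv0 _ hp).1) (by rw [one_mul]; exact (hv0 _ hp').1)
        (by rw [one_mul]; exact (hv2 _ hq).1)
      linarith
    · have h2 := db1 hc0 hc2 hsc hδ (x j) _ (x (j + Fin.ofNat n b')) _
        (hv1 _ hp) (hv1 _ hp') (hv0 _ hq).1 (hv2 _ hr).1
      linarith
    · have h2 := db1 hc0 hc2 hsc hδ (x j) _ (x (j + Fin.ofNat n b')) _
        (hv1 _ hp) (hv1 _ hp') (hv0 _ hr).1 (hv2 _ hq).1
      linarith
    · have h2 := db0 (σ := -1) (H := b / 2 * Real.sin α) hc0 hc2 hsc hδ (by norm_num) (x j)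
        (x (j + Fin.ofNat n c)) (x (j + Fin.ofNat n b')) (x (j + Fin.ofNat n a))
        (hv1 _ hr) (by have := (hv2 _ hp).1; linarith) (by have := (hv2 _ hp').1; linarith)
        (by have := (hv0 _ hq).1; linarith)
      linarith
    · have h2 := db0 (σ := -1) (H := b / 2 * Real.sin α) hc0 hc2 hsc hδ (by norm_num) (x j)
        (x (j + Fin.ofNat n a)) (x (j + Fin.ofNat n b')) (x (j + Fin.ofNat n c))
        (hv1 _ hq) (by have := (hv2 _ hp).1; linarith) (by have := (hv2 _ hp').1; linarith)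
        (by have := (hv0 _ hr).1; linarith)
      linarith

end Pool.Agent.XQ.GI
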