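import Pool.Agent.Helper25_XQ.Cpt

/-!
Squad XQ, Part G, module NKX: kinds of the unmatched triples.
-/

set_option autoImplicit false

namespace Pool.Agent.XQ.H25

open MeasureTheory Complex Filter Topology Pool.Agent.H62T
open Pool.Agent.H16F (Sublin)
open Pool.Agent.AEU
open Pool.Agent.AEU.H25.Fin

theorem ip_comm' (u v : ℂ) : ip u v = ip v u := by simp only [ip]; ring

theorem vx_comm' (s t : HP) : vx s t = vx t s := by
  have h : dt t.1 s.1 = -dt s.1 t.1 := by simp only [dt]; ring
  simp only [vx, h]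
  rw [Complex.ofReal_neg, div_neg, ← neg_div]
  congr 1
  ring

theorem comb {a b r x v : ℂ} (h : dt a b ≠ 0) (h1 : 0 ≤ dt r b * dt a b)
    (h2 : 0 ≤ dt a r * dt a b) (h3 : ip a x ≤ ip a v) (h4 : ip b x ≤ ip b v) :
    ip r x ≤ ip r v := by
  have e : (ip r v - ip r x) * (dt a b) ^ 2 =
      dt r b * dt a b * (ip a v - ip a x) + dt a r * dt a b * (ip b v - ip b x) := by
    simp only [ip, dt]
    ring
  have h5 : 0 ≤ (ip r v - ip r x) * (dt a b) ^ 2 := by
    rw [e]
    exact add_nonneg (mul_nonneg h1 (sub_nonneg.2 h3)) (mul_nonneg h2 (sub_nonneg.2 h4))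
  have h6 : 0 < (dt a b) ^ 2 := by positivity
  have := nonneg_of_mul_nonneg_left h5 h6
  linarith

theorem dt_pos {i j q : ℂ} (hj : ‖j‖ = 1) (h1 : ip i j < 0) (h2 : ip j q < 0) (h3 : ip i q < 0) :
    0 < dt i j * dt j q := by
  have e1 : j.re ^ 2 + j.im ^ 2 = 1 := by
    have := Complex.sq_norm j
    rw [hj, Complex.normSq_apply] at this
    linarith only [this]
  have e : ip i q * (j.re ^ 2 + j.im ^ 2) = ip i j * ip j q - dt i j * dt j q := by
    simp only [ip, dt]; ring
  rw [e1, mul_one] at e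
  have := mul_pos_of_neg_of_neg h1 h2
  linarith

/-- if the three vertices of an acute triple of sides are vertices of the polygon, then the polygon
is the triangle -/
theorem full (vxx : VxxStatement) {X : Finset HP} (hX : Pg X) {i j q : HP}
    (ij : ip i.1 j.1 < 0) (iq : ip i.1 q.1 < 0) (jq : ip j.1 q.1 < 0) {u v w : ℂ}
    (hij : VxOf X i j u) (hjq : VxOf X j q v) (hiq : VxOf X i q w) :
    ∀ r ∈ X, r = i ∨ r = j ∨ r = q := by
  intro r hr
  by_contra hcon
  push Not at hcon
  obtain ⟨ri, rj, rq⟩ := hcon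
  obtain ⟨_, h2, _⟩ := vxx X hX
  have r1 := h2 i j u hij r hr ri rj
  have r2 := h2 j q v hjq r hr rj rq
  have r3 := h2 i q w hiq r hr ri rq
  obtain ⟨x, hx1, hx2⟩ := hX.side r hr
  have hi := (hx2 i hij.mem₁ (Ne.symm ri)).le
  have hj := (hx2 j hij.mem₂ (Ne.symm rj)).le
  have hq := (hx2 q hjq.mem₂ (Ne.symm rq)).le
  have ui := hX.unit i hij.mem₁
  have uj := hX.unit j hij.mem₂
  have uq := hX.unit q hjq.mem₂
  have p1 : 0 < dt i.1 j.1 * dt j.1 q.1 := dt_pos uj ij jq iq
  have p2 : 0 < dt j.1 q.1 * dt q.1 i.1 :=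
    dt_pos uq jq (by rw [ip_comm']; exact iq) (by rw [ip_comm']; exact ij)
  have p3 : 0 < dt q.1 i.1 * dt i.1 j.1 :=
    dt_pos ui (by rw [ip_comm']; exact iq) ij (by rw [ip_comm']; exact jq)
  have id1 : dt j.1 q.1 * dt i.1 r.1 + dt q.1 i.1 * dt j.1 r.1 + dt i.1 j.1 * dt q.1 r.1 = 0 := by
    simp only [dt]; ring
  have anti : ∀ z w : ℂ, dt z w = -dt w z := fun z w => by simp only [dt]; ring
  -- the three candidates
  have c1 : ¬ (0 ≤ dt i.1 r.1 * dt i.1 j.1 ∧ dt j.1 r.1 * dt i.1 j.1 ≤ 0) := by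
    rintro ⟨a1, a2⟩
    have := comb (a := i.1) (b := j.1) (r := r.1) (x := x) (v := u)
      (left_ne_zero_of_mul p1.ne') (by rw [anti r.1 j.1]; linarith) a1
      (by rw [hij.on₁]; exact hi) (by rw [hij.on₂]; exact hj)
    linarith
  have c2 : ¬ (0 ≤ dt j.1 r.1 * dt j.1 q.1 ∧ dt q.1 r.1 * dt j.1 q.1 ≤ 0) := by
    rintro ⟨a1, a2⟩
    have := comb (a := j.1) (b := q.1) (r := r.1) (x := x) (v := v)
      (left_ne_zero_of_mul p2.ne') (by rw [anti r.1 q.1]; linarith) a1
      (by rw [hjq.on₁]; exact hj) (by rw [hjq.on₂]; exact hq)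
    linarith
  have c3 : ¬ (0 ≤ dt q.1 r.1 * dt q.1 i.1 ∧ dt i.1 r.1 * dt q.1 i.1 ≤ 0) := by
    rintro ⟨a1, a2⟩
    have := comb (a := q.1) (b := i.1) (r := r.1) (x := x) (v := w)
      (left_ne_zero_of_mul p3.ne') (by rw [anti r.1 i.1]; linarith) a1
      (by rw [hiq.on₂]; exact hq) (by rw [hiq.on₁]; exact hi)
    linarith
  set a := dt i.1 j.1
  set b := dt j.1 q.1
  set e := dt q.1 i.1
  set A := dt i.1 r.1
  set B := dt j.1 r.1
  set C := dt q.1 r.1
  rcases lt_trichotomy a 0 with ha | ha | ha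
  · have hb : b < 0 := by nlinarith only [p3, p2, ha]
    have he : e < 0 := by nlinarith only [p1, p3, hb]
    have d1 : ¬ (A ≤ 0 ∧ 0 ≤ B) := fun ⟨k1, k2⟩ => c1 ⟨by nlinarith, by nlinarith⟩
    have d2 : ¬ (B ≤ 0 ∧ 0 ≤ C) := fun ⟨k1, k2⟩ => c2 ⟨by nlinarith, by nlinarith⟩
    have d3 : ¬ (C ≤ 0 ∧ 0 ≤ A) := fun ⟨k1, k2⟩ => c3 ⟨by nlinarith, by nlinarith⟩
    rcases le_or_gt A 0 with hA | hA
    · have hB : B < 0 := by
        by_contra k; exact d1 ⟨hA, not_lt.1 k⟩
      have hC : C < 0 := by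
        by_contra k; exact d2 ⟨hB.le, not_lt.1 k⟩
      have hA' : A < 0 := by
        by_contra k; exact d3 ⟨hC.le, not_lt.1 k⟩
      linarith only [id1, mul_pos_of_neg_of_neg hb hA', mul_pos_of_neg_of_neg he hB,
        mul_pos_of_neg_of_neg ha hC]
    · have hC : 0 < C := by
        by_contra k; exact d3 ⟨not_lt.1 k, hA.le⟩
      have hB : 0 < B := by
        by_contra k; exact d2 ⟨not_lt.1 k, hC.le⟩
      linarith only [id1, mul_neg_of_neg_of_pos hb hA, mul_neg_of_neg_of_pos he hB,
        mul_neg_of_neg_of_pos ha hC]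
  · rw [ha] at p1; simp at p1
  · have hb : 0 < b := by nlinarith only [p3, p2, ha]
    have he : 0 < e := by nlinarith only [p1, p3, hb]
    have d1 : ¬ (0 ≤ A ∧ B ≤ 0) := fun ⟨k1, k2⟩ => c1 ⟨by nlinarith, by nlinarith⟩
    have d2 : ¬ (0 ≤ B ∧ C ≤ 0) := fun ⟨k1, k2⟩ => c2 ⟨by nlinarith, by nlinarith⟩
    have d3 : ¬ (0 ≤ C ∧ A ≤ 0) := fun ⟨k1, k2⟩ => c3 ⟨by nlinarith, by nlinarith⟩
    rcases le_or_gt 0 A with hA | hA
    · have hB : 0 < B := by
        by_contra k; exact d1 ⟨hA, not_lt.1 k⟩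
      have hC : 0 < C := by
        by_contra k; exact d2 ⟨hB.le, not_lt.1 k⟩
      have hA' : 0 < A := by
        by_contra k; exact d3 ⟨hC.le, not_lt.1 k⟩
      linarith only [id1, mul_pos hb hA', mul_pos he hB, mul_pos ha hC]
    · have hC : C < 0 := by
        by_contra k; exact d3 ⟨not_lt.1 k, hA.le⟩
      have hB : B < 0 := by
        by_contra k; exact d2 ⟨not_lt.1 k, hC.le⟩
      linarith only [id1, mul_neg_of_pos_of_neg hb hA, mul_neg_of_pos_of_neg he hB,
        mul_neg_of_pos_of_neg ha hC]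

/-- the data of an unmatched triple -/
structure NTr (X Y : Finset HP) (L : ℝ) (T : Finset (Finset HP)) (c : Finset HP → HP → ℝ)
    (K : Finset HP → ℂ → ℝ) (S : Finset HP) : Prop where
  half : Half X Y L T c K
  sub : S ⊆ X
  card : S.card = 3
  np : Np S
  le : Le X S L
  nm : ¬ MTr X Y L S
  nt : ¬ TB T c S

/-- special bodies touching `S` are not shorter than `L` -/
theorem NTr.spec {X Y : Finset HP} {L : ℝ} {T c K} {S : Finset HP} (H : NTr X Y L T c K S)
    {h : ℂ → ℝ} (hs : Special X h) (ht : S ⊆ touch X h) : L ≤ AEU.lam h := by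
  by_contra hcon
  push Not at hcon
  obtain ⟨g, hg⟩ := H.half.env.all h hs hcon
  exact H.nm ⟨H.sub, H.card, h, g, hs, hg, ht, Or.inl hcon⟩

/-- special bodies of length `L` touching `S` touch three sides only, if `S` is not touched by a
shorter body -/
theorem NTr.three {X Y : Finset HP} {L : ℝ} {T c K} {S : Finset HP} (H : NTr X Y L T c K S)
    (hn : ¬ Lt X S L) {h : ℂ → ℝ} (hs : Special X h) (ht : S ⊆ touch X h)
    (hl : AEU.lam h = L) : touch X h = S := by
  classical
  by_contra hne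
  have h4 : 4 ≤ (touch X h).card := by
    have := Finset.card_lt_card (Finset.ssubset_iff_subset_ne.2 ⟨ht, Ne.symm hne⟩)
    have := H.card
    omega
  by_cases hu : Unl X Y h
  · obtain ⟨hF, hK⟩ := H.half.t' h hu hl h4
    obtain ⟨hFX, hT, _⟩ := H.half.t _ hF
    have hc := hT.card
    -- the fourth side
    obtain ⟨t, htF, htS⟩ : ∃ t ∈ touch X h, t ∉ S := by
      by_contra hcon
      push Not at hcon
      exact hne (Finset.Subset.antisymm hcon ht)
    have hSe : S = (touch X h).erase t := by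
      refine Finset.eq_of_subset_of_card_le ?_ ?_
      · intro s hs'
        exact Finset.mem_erase.2 ⟨fun e => htS (e ▸ hs'), ht hs'⟩
      · rw [Finset.card_erase_of_mem htF, hc, H.card]
    rcases lt_trichotomy (c (touch X h) t) 0 with h1 | h1 | h1
    · exact H.nt ⟨_, hF, t, htF, hSe, h1⟩
    · exact hT.ne t htF h1
    · exact hn (hSe ▸ hT.lt t htF h1)
  · obtain ⟨g, hg⟩ := H.half.lm h hs hl h4 hu
    exact H.nm ⟨H.sub, H.card, h, g, hs, hg, ht, Or.inr ⟨hl, h4⟩⟩

/-- the three cases -/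
theorem NTr.cases (cl3 : Cl3Statement) (tbx : TbxStatement) (brx : BrxStatement)
    {X Y : Finset HP} {L : ℝ} {T c K} {S : Finset HP} (H : NTr X Y L T c K S) :
    (Ghost X S ∧ Lt X S L) ∨
    (¬ Lt X S L ∧ ∃ h, Special X h ∧ touch X h = S ∧ AEU.lam h = L ∧
      ((∃ i j k v w, ShA X h i j k v w) ∨ ∃ i j q v d, TypeB X h i j q v d ∧ 0 ≤ ip i.1 j.1)) ∨
    (¬ Lt X S L ∧ Ghost X S ∧ ∀ h, Special X h → S ⊆ touch X h → L < AEU.lam h) := by
  by_cases hL : Lt X S L
  · left
    obtain ⟨h, h1, h2, h3, h4⟩ := hL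
    exact ⟨⟨H.sub, H.card, h, h1, h2, h3, fun h' hs' ht' => h4.trans_le (H.spec hs' ht')⟩,
      h, h1, h2, h3, h4⟩
  · right
    by_cases hsp : ∃ h, Special X h ∧ S ⊆ touch X h ∧ AEU.lam h = L
    · left
      obtain ⟨h, h1, h2, h3⟩ := hsp
      have ht := H.three hL h1 h2 h3
      refine ⟨hL, h, h1, ht, h3, ?_⟩
      have hmin : ∀ h', Special X h' → touch X h ⊆ touch X h' → AEU.lam h ≤ AEU.lam h' := by
        intro h' hs' ht'
        rw [h3]
        exact H.spec hs' (by rw [← ht]; exact ht')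
      rcases cl3 X H.half.env.pg h h1 (by rw [ht]; exact H.card) hmin with h4 | h4
      · exact Or.inl h4
      · obtain ⟨i, j, q, v, d, hB⟩ := h4
        right
        refine ⟨i, j, q, v, d, hB, ?_⟩
        by_contra hneg
        push Not at hneg
        have h5 := brx X H.half.env.pg h i j q v d hB hneg
        have h6 := (tbx X H.half.env.pg h i j q v d hB).2.1
        rw [← h6, ht, h3] at h5
        exact hL h5
    · right
      obtain ⟨h₁, k1, k2, k3, k4⟩ := H.le
      have hsp' : ∀ h, Special X h → S ⊆ touch X h → L < AEU.lam h := by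
        intro h h1 h2
        exact lt_of_le_of_ne (H.spec h1 h2) fun e => hsp ⟨h, h1, h2, e.symm⟩
      exact ⟨hL, ⟨H.sub, H.card, h₁, k1, k2, k3, fun h' hs' ht' => k4.trans_lt (hsp' h' hs' ht')⟩,
        hsp'⟩

/-- acute unmatched triples are ghosts -/
theorem NTr.ghost_of_acute (cl3 : Cl3Statement) (tax : TaxStatement) (tbx : TbxStatement)
    (brx : BrxStatement) {X Y : Finset HP} {L : ℝ} {T c K} {S : Finset HP}
    (H : NTr X Y L T c K S) (ha : Acute S) : Ghost X S := by
  classical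
  rcases H.cases cl3 tbx brx with h | ⟨_, h, _, ht, _, h4⟩ | h
  · exact h.1
  · exfalso
    rcases h4 with ⟨i, j, k, v, w, hA⟩ | ⟨i, j, q, v, d, hB, h0⟩
    · obtain ⟨_, e, hij, _⟩ := tax X H.half.env.pg h i j k v w hA
      rw [ht] at e
      have := ha i (by rw [e]; simp) j (by rw [e]; simp) hij
      linarith [hA.obt]
    · obtain ⟨_, e, hij, _⟩ := tbx X H.half.env.pg h i j q v d hB
      rw [ht] at e
      have := ha i (by rw [e]; simp) j (by rw [e]; simp) hij
      linarith
  · exact h.2.1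

theorem dist3 {S : Finset HP} {i j q : HP} (e : S = {i, j, q}) (hc : S.card = 3) :
    i ≠ j ∧ i ≠ q ∧ j ≠ q := by
  classical
  rw [e] at hc
  refine ⟨?_, ?_, ?_⟩
  · rintro rfl
    have := Finset.card_le_two (a := i) (b := q)
    simp at hc; omega
  · rintro rfl
    have := Finset.card_le_two (a := i) (b := j)
    rw [Finset.pair_comm j i] at hc; simp at hc; omega
  · rintro rfl
    have := Finset.card_le_two (a := i) (b := j)
    simp at hc; omega

theorem perm3 {S : Finset HP} {i j q : HP} (e : S = {i, j, q}) :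
    S = {j, i, q} ∧ S = {i, q, j} ∧ S = {j, q, i} := by
  classical
  subst e
  refine ⟨?_, ?_, ?_⟩ <;> (ext x; simp only [Finset.mem_insert, Finset.mem_singleton]; tauto)

theorem acute_lt {X S : Finset HP} (hX : Pg X) (hS : S ⊆ X) (hnp : Np S) (ha : Acute S)
    {i j q : HP} (e : S = {i, j, q}) (hc : S.card = 3) {L : ℝ}
    (hl : q.2 - ip q.1 (vx i j) = L / 2) :
    IsB i j q L (ip i.1 j.1) (ip i.1 q.1) (ip j.1 q.1) := by
  classical
  have hi : i ∈ S := by rw [e]; simp
  have hj : j ∈ S := by rw [e]; simp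
  have hq : q ∈ S := by rw [e]; simp
  have hd := dist3 e hc
  have ui := hX.unit i (hS hi)
  have uj := hX.unit j (hS hj)
  have uq := hX.unit q (hS hq)
  have l1 := abs_ip_lt ui uj (hnp i hi j hj hd.1)
  have l2 := abs_ip_lt ui uq (hnp i hi q hq hd.2.1)
  have l3 := abs_ip_lt uj uq (hnp j hj q hq hd.2.2)
  exact ⟨ui, uj, uq, rfl, rfl, rfl, l1, (abs_lt.1 l2).1, (abs_lt.1 l3).1,
    ha i hi q hq hd.2.1, ha j hj q hq hd.2.2, hl⟩

/-- kinds of the triples which are touched by shorter bodies -/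
theorem NTr.kind_lt (vxx : VxxStatement) (alx : AlxStatement)
    {X Y : Finset HP} {L : ℝ} {T c K} {S : Finset HP} (H : NTr X Y L T c K S) (ha : Acute S)
    (h0 : 0 < ell S) (h1 : ell S < L) : KindQ S L := by
  classical
  have hX := H.half.env.pg
  have hL := H.half.L0
  have key := fun i j q e => alx X Y L T c K H.half S H.sub H.card ha H.le H.nm H.nt i j q e
  by_cases hne : ∀ i j q, S = {i, j, q} → q.2 - ip q.1 (vx i j) ≠ L / 2
  · exact Or.inl (Or.inl ⟨H.card, fun s hs => hX.unit s (H.sub hs), ha, h1, h0,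
      fun i j q e => lt_of_le_of_ne (key i j q e).1 (Ne.symm (hne i j q e))⟩)
  · push Not at hne
    obtain ⟨i, j, q, e, hq⟩ := hne
    obtain ⟨e1, e2, e3⟩ := perm3 e
    obtain ⟨hij, hiq, hjq⟩ := dist3 e H.card
    have mi : i ∈ S := by rw [e]; simp
    have mj : j ∈ S := by rw [e]; simp
    have mq : q ∈ S := by rw [e]; simp
    have ui := hX.unit i (H.sub mi)
    have uj := hX.unit j (H.sub mj)
    have uq := hX.unit q (H.sub mq)
    have nij := ha i mi j mj hij
    have niq := ha i mi q mq hiq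
    have njq := ha j mj q mq hjq
    have nji := ha j mj i mi hij.symm
    have nqi := ha q mq i mi hiq.symm
    have nqj := ha q mq j mj hjq.symm
    have Aj := (key i q j e2).1
    have Ai := (key j q i e3).1
    have Aq := (key i j q e).1
    -- comparison of the altitudes
    have C1 := ((alc i j q ui uj uq nij niq njq).2 (by linarith only [h0, h1, hq])).2.2.2
    have C2 := ((alc j i q uj ui uq nji njq niq).2 (by rw [vx_comm' j i]; linarith)).2.2.2
    rw [vx_comm' j i] at C2
    have C1' := ((alc i q j ui uq uj niq nij nqj).2 (by linarith)).2.2.2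
    have C2' := ((alc j q i uj uq ui njq nji nqi).2 (by linarith)).2.2.2
    rw [vx_comm' j i] at C2'
    have C3 := ((alc q i j uq ui uj nqi nqj nij).2 (by rw [vx_comm' q i]; linarith)).2.2.2
    have C4 := ((alc q j i uq uj ui nqj nqi nji).2 (by rw [vx_comm' q j]; linarith)).2.2.2
    rw [vx_comm' q i, vx_comm' q j] at C3 C4
    have bB := acute_lt hX H.sub H.np ha e H.card hq
    rcases eq_or_lt_of_le Aj with hj | hj
    · rcases eq_or_lt_of_le Ai with hi | hi
      · -- all three altitudes: the polygon is a triangle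
        exfalso
        obtain ⟨_, B1⟩ := (key i j q e).2 hq
        obtain ⟨_, B2⟩ := (key i q j e2).2 hj.symm
        obtain ⟨_, B3⟩ := (key j q i e3).2 hi.symm
        have hf := full vxx hX nij niq njq B1.vi B3.vi B2.vi
        have : X ⊆ S := by
          intro r hr
          rw [e]
          simpa using hf r hr
        have := Finset.card_le_card this
        have := H.card
        have := H.half.c4
        omega
      · -- the altitudes to `q` and `j`
        have bB' := acute_lt hX H.sub H.np ha e1 H.card (by rw [vx_comm' j i]; exact hq)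
        have hcc : ip j.1 i.1 = ip i.1 q.1 := by
          have t1 : ¬ ip i.1 q.1 < ip i.1 j.1 := fun t => by
            have := C1.2 t; linarith
          have t2 : ¬ ip i.1 j.1 < ip i.1 q.1 := fun t => by
            have := C1'.2 t; linarith
          rw [ip_comm' j.1 i.1]
          exact le_antisymm (not_lt.1 t1) (not_lt.1 t2)
        right; right; right
        refine ⟨j, i, q, ip j.1 i.1, ip j.1 q.1, e1, H.card, ?_, nji, ha, h0, h1, ?_⟩
        · rw [← hcc] at bB'
          exact bB'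
        · exact C2.1 (by linarith)
    · rcases eq_or_lt_of_le Ai with hi | hi
      · have hcc : ip i.1 j.1 = ip j.1 q.1 := by
          have t1 : ¬ ip j.1 q.1 < ip j.1 i.1 := fun t => by
            have := C2.2 t; linarith
          have t2 : ¬ ip j.1 i.1 < ip j.1 q.1 := fun t => by
            have := C2'.2 t; linarith
          rw [ip_comm' i.1 j.1]
          exact le_antisymm (not_lt.1 t1) (not_lt.1 t2)
        right; right; right
        refine ⟨i, j, q, ip i.1 j.1, ip i.1 q.1, e, H.card, ?_, nij, ha, h0, h1, ?_⟩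
        · rw [← hcc] at bB
          exact bB
        · exact C1.1 (by linarith)
      · left; right; right; right; right
        refine ⟨_, _, _, i, j, q, e, H.card, bB, nij, ha, h0, h1, ?_, ?_⟩
        · have := C2.1 (by linarith)
          rw [ip_comm' j.1 i.1] at this
          exact this
        · exact C1.1 (by linarith)

end Pool.Agent.XQ.H25

namespace Pool.Agent.XQ

open MeasureTheory Complex Filter Topology Pool.Agent.H62T
open Pool.Agent.H16F (Sublin)
open Pool.Agent.AEU
open H25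

/-- module NKX -/
theorem nkx (vxx : VxxStatement) (ghx : GhxStatement) (cl3 : Cl3Statement) (tax : TaxStatement)
    (tbx : TbxStatement) (brx : BrxStatement) (alx : AlxStatement) : NkxStatement := by
  classical
  intro X Y L T c K hH S hS hc hnp hle hnm hnt
  have H : NTr X Y L T c K S := ⟨hH, hS, hc, hnp, hle, hnm, hnt⟩
  have hX := hH.env.pg
  have hL := hH.L0
  have key := fun (ha : Acute S) i j q e => alx X Y L T c K hH S hS hc ha hle hnm hnt i j q e
  -- ghosts of length `L` are of the kind `KGh`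
  have hgh : Ghost X S → ell S = L → KGh S L := by
    intro hG hl
    obtain ⟨ha, _, _, h₀, g1, g2, g3, g4, g5⟩ := ghx X hX S hG
    refine ⟨hc, fun s hs => hX.unit s (hS hs), ha, hl, fun i j q e => ?_⟩
    refine lt_of_le_of_ne (key ha i j q e).1 fun he => ?_
    obtain ⟨h, hB⟩ := (key ha i j q e).2 he.symm
    obtain ⟨b1, b2, _, _, _, _, b3, _⟩ := tbx X hX h i j q _ _ hB
    obtain ⟨_, _, h', k1, k2, k3, k4⟩ := hG
    have k5 := k4 h b1 (by rw [b2, e])
    have k6 := g5 h' k1 k2 k3
    rw [b3] at k5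
    linarith only [hl, k5, k6]
  -- ghosts
  have hga : Ghost X S → Acute S := fun hG => (ghx X hX S hG).1
  have hag : Acute S → Ghost X S := H.ghost_of_acute cl3 tax tbx brx
  refine ⟨?_, ?_, ⟨fun h => ⟨hga h.1, h.2⟩, fun h => ⟨hag h.1, h.2⟩⟩,
    ⟨fun h => hgh h.1 h.2, fun h => ⟨hag h.acute, h.len⟩⟩⟩
  · rcases H.cases cl3 tbx brx with ⟨hG, hlt⟩ | ⟨hn, h, hsp, ht, hl, h4⟩ | ⟨hn, hG, hgt⟩
    · obtain ⟨ha, _, hpos, _, _, _, _, _, g5⟩ := ghx X hX S hG
      obtain ⟨h, k1, k2, k3, k4⟩ := hlt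
      exact H.kind_lt vxx alx ha hpos ((g5 h k1 k2 k3).trans_lt k4)
    · rcases h4 with ⟨i, j, k, v, w, hA⟩ | ⟨i, j, q, v, d, hB, h0⟩
      · obtain ⟨_, e, hij, hjk, _, _, _, _, a1, a2, a3, a4⟩ := tax X hX h i j k v w hA
        have e' : S = {i, j, k} := by rw [← ht, e]
        rw [← e', hl] at a1 a2 a3
        rcases eq_or_lt_of_le hA.obt with o1 | o1
        · rcases eq_or_lt_of_le hA.obt' with o2 | o2
          · exfalso
            exact hnp i (by rw [e']; simp) k (by rw [e']; simp) hA.ne (a4 o1.symm o2.symm)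
          · exact Or.inr (Or.inl ⟨_, a3 o1.symm o2⟩)
        · rcases eq_or_lt_of_le hA.obt' with o2 | o2
          · exact Or.inr (Or.inl ⟨_, a2 o1 o2.symm⟩)
          · exact Or.inl (Or.inr (Or.inr (Or.inl ⟨_, _, a1 o1 o2⟩)))
      · obtain ⟨_, e, _, _, _, _, _, _, b⟩ := tbx X hX h i j q v d hB
        have e' : S = {i, j, q} := by rw [← ht, e]
        have hb := b (by rw [← e']; exact hnp)
        rw [hl] at hb
        rcases eq_or_lt_of_le h0 with o | o
        · rw [← o] at hb
          exact Or.inr (Or.inr (Or.inl ⟨_, _, i, j, q, e', hc, hb⟩))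
        · exact Or.inl (Or.inr (Or.inr (Or.inr (Or.inl ⟨_, _, _, i, j, q, e', hc, hb, o⟩))))
    · obtain ⟨ha, _, hpos, h₀, g1, g2, g3, g4, g5⟩ := ghx X hX S hG
      refine Or.inl (Or.inr (Or.inl (hgh hG ?_)))
      obtain ⟨h₁, k1, k2, k3, k4⟩ := hle
      refine le_antisymm ((g5 h₁ k1 k2 k3).trans k4) ?_
      by_contra hcon
      push Not at hcon
      exact hn ⟨h₀, g1, g2, by rw [g3], by rw [g4]; exact hcon⟩
  · rintro a b ⟨i, j, q, e, _, hb⟩
    have mi : i ∈ S := by rw [e]; simp
    have mj : j ∈ S := by rw [e]; simp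
    have mq : q ∈ S := by rw [e]; simp
    obtain ⟨dij, diq, djq⟩ := dist3 e hc
    have hna : ¬ Acute S := fun ha => by
      have := ha i mi j mj dij
      rw [hb.ij] at this
      exact lt_irrefl _ this
    -- all pairs different from `i`, `j` have negative scalar products
    have hneg : ∀ s ∈ S, ∀ t ∈ S, s ≠ t → 0 ≤ ip s.1 t.1 → (s = i ∧ t = j) ∨ (s = j ∧ t = i) := by
      have n1 : ip i.1 q.1 < 0 := by rw [hb.iq]; exact hb.nega
      have n2 : ip j.1 q.1 < 0 := by rw [hb.jq]; exact hb.negb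
      have n3 : ip q.1 i.1 < 0 := by rw [ip_comm']; exact n1
      have n4 : ip q.1 j.1 < 0 := by rw [ip_comm']; exact n2
      intro s hs t ht hst h0
      rw [e] at hs ht
      simp only [Finset.mem_insert, Finset.mem_singleton] at hs ht
      rcases hs with rfl | rfl | rfl <;> rcases ht with rfl | rfl | rfl
      · exact absurd rfl hst
      · exact Or.inl ⟨rfl, rfl⟩
      · linarith
      · exact Or.inr ⟨rfl, rfl⟩
      · exact absurd rfl hst
      · linarith
      · linarith
      · linarith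
      · exact absurd rfl hst
    rcases H.cases cl3 tbx brx with ⟨hG, _⟩ | ⟨hn, h, hsp, ht, hl, h4⟩ | ⟨_, hG, _⟩
    · exact absurd (hga hG) hna
    · rcases h4 with ⟨i', j', k', v, w, hA⟩ | ⟨i', j', q', v, d, hB, h0⟩
      · exfalso
        obtain ⟨_, e', hij, hjk, _⟩ := tax X hX h i' j' k' v w hA
        rw [ht] at e'
        have m1 : i' ∈ S := by rw [e']; simp
        have m2 : j' ∈ S := by rw [e']; simp
        have m3 : k' ∈ S := by rw [e']; simp
        have r1 := hneg i' m1 j' m2 hij hA.obt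
        have r2 := hneg j' m2 k' m3 hjk hA.obt'
        have hne := hA.ne
        rcases r1 with ⟨r1, r1'⟩ | ⟨r1, r1'⟩ <;> rcases r2 with ⟨r2, r2'⟩ | ⟨r2, r2'⟩
        · exact hij (r1.trans r2.symm)
        · exact hne (r1.trans r2'.symm)
        · exact hne (r1.trans r2'.symm)
        · exact hij (r1.trans r2.symm)
      · obtain ⟨_, e', hij, _, _, _, _, _, _⟩ := tbx X hX h i' j' q' v d hB
        rw [ht] at e'
        have m1 : i' ∈ S := by rw [e']; simp
        have m2 : j' ∈ S := by rw [e']; simp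
        have hz : ip i'.1 j'.1 = 0 := by
          rcases hneg i' m1 j' m2 hij h0 with ⟨r1, r2⟩ | ⟨r1, r2⟩
          · rw [r1, r2]; exact hb.ij
          · rw [r1, r2, ip_comm']; exact hb.ij
        exact ⟨h, i', j', q', v, d, hB, hz, hl, e'⟩
    · exact absurd (hga hG) hna

end Pool.Agent.XQ
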