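import Pool.Agent.Helper35_XQ.Stmt

/-!
Squad XQ, Part A2, module GI_TEO: telescoping.
-/

set_option autoImplicit false

namespace Pool.Agent.XQ.GI.H25

open Pool.Agent.XQ.GI

/-- an unvisited letter stays -/
theorem keep (lst : LstStatement) {g : Lb} (hg : Rz g) {s : Fin 3} {v : Wd} (hs : s ∈ v.1)
    (hn : s ∉ vs g) : s ∈ (g v).1 := by
  obtain ⟨_, _, h3, _, h5, _⟩ := lst
  have h1 : (sg s).1.Sublist v.1 := by
    simpa [sg] using hs
  have h2 := h5 g hg (sg s) v h1
  have h4 : g (sg s) ≠ em := by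
    intro h
    apply hn
    simp only [vs, Finset.mem_filter, Finset.mem_univ, true_and]
    exact h
  have h6 := h3 g hg (sg s)
  have h7 : (g (sg s)).1 = [s] := by
    have h8 : (g (sg s)).1 ≠ [] := by
      intro h
      exact h4 (Subtype.ext h)
    obtain ⟨t, ht⟩ := h6
    change t ++ (g (sg s)).1 = [s] at ht
    cases t with
    | nil => simpa using ht
    | cons a t =>
      exfalso
      apply h8
      have := congrArg List.length ht
      simp only [List.length_append, List.length_cons, List.length_nil] at this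
      exact List.length_eq_zero_iff.1 (by omega)
  rw [h7] at h2
  simpa using h2

/-- an unvisited first letter stops the reading -/
theorem stop (lst : LstStatement) {g : Lb} (hg : Rz g) {s : Fin 3} {l : List (Fin 3)} {v : Wd}
    (hv : v.1 = s :: l) (hn : s ∉ vs g) : g v = v := by
  have h1 := keep lst hg (v := v) (s := s) (by rw [hv]; simp) hn
  obtain ⟨_, _, h3, _⟩ := lst
  obtain ⟨t, ht⟩ := h3 g hg v
  cases t with
  | nil => exact Subtype.ext (by simpa using ht)
  | cons a t =>
    exfalso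
    rw [hv] at ht
    simp only [List.cons_append, List.cons.injEq] at ht
    have hnd := v.2
    rw [hv] at hnd
    have h4 := (List.nodup_cons.1 hnd).1
    apply h4
    rw [← ht.2]
    exact List.mem_append_right _ h1

theorem keepL (lst : LstStatement) {s : Fin 3} : ∀ (L : List Lb) (v : Wd), (∀ f ∈ L, Rz f) →
    (∀ f ∈ L, s ∉ vs f) → s ∈ v.1 → s ∈ (L.foldl (fun v f => f v) v).1
  | [], v, _, _, h => h
  | f :: L, v, hR, hn, h => by
    rw [List.foldl_cons]
    exact keepL lst L _ (fun g hg => hR g (List.mem_cons_of_mem _ hg))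
      (fun g hg => hn g (List.mem_cons_of_mem _ hg))
      (keep lst (hR f List.mem_cons_self) h (hn f List.mem_cons_self))

/-- a pattern which does not occur cannot be read -/
theorem noread (lst : LstStatement) {s t : Fin 3} (hst : s ≠ t) : ∀ (L : List Lb) (v : Wd),
    (∀ f ∈ L, Rz f) → L.Pairwise (fun f g => ¬ (s ∈ vs f ∧ t ∈ vs g)) →
    (∀ f ∈ L, ¬ (s ∈ vs f ∧ t ∈ vs f)) → [s, t].Sublist v.1 →
    t ∈ (L.foldl (fun v f => f v) v).1
  | [], v, _, _, _, h => by
    exact h.subset (by simp)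
  | f :: L, v, hR, hp, hd, h => by
    rw [List.foldl_cons]
    have hR' : ∀ g ∈ L, Rz g := fun g hg => hR g (List.mem_cons_of_mem _ hg)
    rw [List.pairwise_cons] at hp
    have hRf := hR f List.mem_cons_self
    by_cases hs : s ∈ vs f
    · have ht : t ∉ vs f := fun ht => hd f List.mem_cons_self ⟨hs, ht⟩
      refine keepL lst L _ hR' (fun g hg ht' => hp.1 g hg ⟨hs, ht'⟩) ?_
      exact keep lst hRf (h.subset (by simp)) ht
    · refine noread lst hst L _ hR' hp.2 (fun g hg => hd g (List.mem_cons_of_mem _ hg)) ?_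
      have h5 := lst.2.2.2.2.1 f hRf ⟨[s, t], by simpa using hst⟩ v h
      rw [stop lst hRf (v := ⟨[s, t], by simpa using hst⟩) rfl hs] at h5
      exact h5

/-! ### Natural indices -/

section
variable {n : ℕ} [NeZero n]

theorem ofNat_add (a b : ℕ) : (Fin.ofNat n a + Fin.ofNat n b : Fin n) = Fin.ofNat n (a + b) := by
  apply Fin.ext
  simp [Fin.add_def, Fin.ofNat]

theorem ofNat_succ (a : ℕ) : (Fin.ofNat n (a + 1) : Fin n) = Fin.ofNat n a + 1 := by
  rw [← ofNat_add]
  rfl

theorem ofNat_add_n (a : ℕ) : (Fin.ofNat n (a + n) : Fin n) = Fin.ofNat n a := by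
  apply Fin.ext
  simp [Fin.ofNat]

theorem ofNat_val (j : Fin n) : (Fin.ofNat n j.1 : Fin n) = j := by
  apply Fin.ext
  simp [Fin.ofNat, Nat.mod_eq_of_lt j.2]

/-- the list of the blocks after block `x` -/
def LL (A : Fin n → Lb) (x : ℕ) : List Lb :=
  List.ofFn fun i : Fin (n - 1) => A (Fin.ofNat n (x + (i.1 + 1)))

theorem FO_iff (A : Fin n → Lb) (x : ℕ) :
    FO A (Fin.ofNat n x) ↔ (LL A x).foldl (fun v f => f v) w012 = em := by
  unfold FO LL
  simp only [ofNat_add]

theorem pw (A : Fin n → Lb) (x : ℕ) (R : Lb → Lb → Prop)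
    (h : ∀ b c, x < b → b < c → c < x + n → R (A (Fin.ofNat n b)) (A (Fin.ofNat n c))) :
    (LL A x).Pairwise R := by
  unfold LL
  rw [List.pairwise_ofFn]
  intro i j hij
  have h1 : i.1 < j.1 := hij
  have h2 := j.2
  exact h _ _ (by omega) (by omega) (by omega)

theorem mem_LL {A : Fin n → Lb} {x : ℕ} {f : Lb} (h : f ∈ LL A x) : ∃ j, f = A j := by
  unfold LL at h
  rw [List.mem_ofFn] at h
  obtain ⟨i, hi⟩ := h
  exact ⟨_, hi.symm⟩

/-- the patterns of the visits, with natural indices -/
structure Pat (n : ℕ) (D : ℕ → Finset (Fin 3)) : Prop where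
  per : ∀ i, D (i + n) = D i
  nl : ∀ x y z w, x < y → y < z → z < w → w < x + n → 0 ∈ D x → 2 ∈ D y → 0 ∈ D z → 2 ∉ D w
  dis : ∀ x, 0 ∈ D x → 2 ∉ D x
  adj : ∀ x, 2 ∈ D x → 0 ∉ D (x + 1)

theorem least (p : ℕ → Prop) {a b : ℕ} (hab : a < b) (hb : p b) :
    ∃ c, a < c ∧ c ≤ b ∧ p c ∧ ∀ d, a < d → d < c → ¬ p d := by
  classical
  have hex : ∃ c, a < c ∧ p c := ⟨b, hab, hb⟩
  refine ⟨Nat.find hex, (Nat.find_spec hex).1, Nat.find_min' hex ⟨hab, hb⟩,
    (Nat.find_spec hex).2, fun d h1 h2 hd => Nat.find_min hex h2 ⟨h1, hd⟩⟩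

theorem greatest (p : ℕ → Prop) {a b : ℕ} (hab : a < b) (ha : p a) :
    ∃ c, a ≤ c ∧ c < b ∧ p c ∧ ∀ d, c < d → d < b → ¬ p d := by
  classical
  have hex : ∃ c, c < b ∧ p c ∧ a ≤ c := ⟨a, hab, ha, le_rfl⟩
  have hex' : ∃ k, k ≤ b ∧ p (b - 1 - k) ∧ a ≤ b - 1 - k := ⟨b - 1 - a, by omega, by
    have : b - 1 - (b - 1 - a) = a := by omega
    rw [this]; exact ha, by omega⟩
  have h1 := Nat.find_spec hex'
  refine ⟨b - 1 - Nat.find hex', h1.2.2, by omega, h1.2.1, fun d h2 h3 hd => ?_⟩
  have h4 : b - 1 - d < Nat.find hex' := by omega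
  refine Nat.find_min hex' h4 ⟨by omega, ?_, by omega⟩
  have : b - 1 - (b - 1 - d) = d := by omega
  rw [this]; exact hd

/-- a block after which the pattern `0 2` does not occur -/
theorem Pat.off {n : ℕ} {D : ℕ → Finset (Fin 3)} (P : Pat n D) {z w : ℕ} (hzw : z < w)
    (hz : 0 ∈ D z) (hw : 2 ∈ D w) :
    ∃ x, z ≤ x ∧ ∀ b c, x < b → b < c → c < x + n → ¬ (0 ∈ D b ∧ 2 ∈ D c) := by
  obtain ⟨w1, a1, a2, a3, a4⟩ := least (fun i => 2 ∈ D i) hzw hw
  obtain ⟨x, b1, b2, b3, b4⟩ := greatest (fun i => 0 ∈ D i) a1 hz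
  refine ⟨x, b1, fun b c h1 h2 h3 => ?_⟩
  rintro ⟨h4, h5⟩
  rcases lt_trichotomy b w1 with h | h | h
  · exact b4 b h1 h h4
  · subst h
    exact P.dis _ h4 a3
  · exact P.nl x w1 b c b2 h h2 h3 b3 a3 h4 h5

/-- a block without the letters `0`, `2`, after which the pattern `2 0` does not occur -/
theorem Pat.on {n : ℕ} {D : ℕ → Finset (Fin 3)} (P : Pat n D) {z w : ℕ} (hwz : w < z)
    (hz : 0 ∈ D z) (hw : 2 ∈ D w) :
    ∃ x, 0 ∉ D x ∧ 2 ∉ D x ∧ ∀ b c, x < b → b < c → c < x + n → ¬ (2 ∈ D b ∧ 0 ∈ D c) := by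
  obtain ⟨z1, a1, a2, a3, a4⟩ := least (fun i => 0 ∈ D i) hwz hz
  obtain ⟨w1, b1, b2, b3, b4⟩ := greatest (fun i => 2 ∈ D i) a1 hw
  have h0 : w1 + 1 ≠ z1 := by
    rintro rfl
    exact P.adj _ b3 a3
  have h1 : 0 ∉ D (w1 + 1) := P.adj _ b3
  have h2 : 2 ∉ D (w1 + 1) := b4 _ (by omega) (by omega)
  refine ⟨w1 + 1, h1, h2, fun b c c1 c2 c3 => ?_⟩
  rintro ⟨h4, h5⟩
  have h6 : c ≠ w1 + n := by
    rintro rfl
    rw [P.per] at h5
    exact P.dis _ h5 b3
  rcases lt_trichotomy b z1 with h | h | h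
  · exact b4 b (by omega) h h4
  · subst h
    exact P.dis _ a3 h4
  · refine P.nl z1 b c (w1 + n) h c2 (by omega) (by omega) a3 h4 h5 ?_
    rw [P.per]
    exact b3

theorem foldSuf (lst : LstStatement) : ∀ (L : List Lb) (v w : Wd), (∀ f ∈ L, Rz f) →
    v.1 <:+ w.1 → (L.foldl (fun v f => f v) v).1 <:+ (L.foldl (fun v f => f v) w).1
  | [], _, _, _, h => h
  | f :: L, v, w, hR, h => by
    rw [List.foldl_cons, List.foldl_cons]
    exact foldSuf lst L _ _ (fun g hg => hR g (List.mem_cons_of_mem _ hg))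
      (lst.2.2.2.1 f (hR f List.mem_cons_self) v w h)

theorem foldSuf' (lst : LstStatement) : ∀ (L : List Lb) (v : Wd), (∀ f ∈ L, Rz f) →
    (L.foldl (fun v f => f v) v).1 <:+ v.1
  | [], _, _ => List.suffix_refl _
  | f :: L, v, hR => by
    rw [List.foldl_cons]
    exact (foldSuf' lst L _ (fun g hg => hR g (List.mem_cons_of_mem _ hg))).trans
      (lst.2.2.1 f (hR f List.mem_cons_self) v)

theorem em_of {v : Wd} (h : v.1 = []) : v = em := Subtype.ext h

section
variable {n : ℕ} [NeZero n]

/-- the blocks after `x + 1` and before `x + n` -/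
def MM (A : Fin n → Lb) (x : ℕ) : List Lb :=
  List.ofFn fun i : Fin (n - 2) => A (Fin.ofNat n (x + (i.1 + 2)))

theorem LL_cons (A : Fin n → Lb) (hn : 2 ≤ n) (x : ℕ) :
    LL A x = A (Fin.ofNat n (x + 1)) :: MM A x := by
  unfold LL MM
  refine List.ext_getElem ?_ ?_
  · simp only [List.length_ofFn, List.length_cons]; omega
  · intro i h1 h2
    cases i with
    | zero => simp
    | succ i => simp

theorem LL_append (A : Fin n → Lb) (hn : 2 ≤ n) (x : ℕ) :
    LL A (x + 1) = MM A x ++ [A (Fin.ofNat n x)] := by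
  unfold LL MM
  refine List.ext_getElem ?_ ?_
  · simp only [List.length_ofFn, List.length_append, List.length_cons, List.length_nil]; omega
  · intro i h1 h2
    simp only [List.length_ofFn] at h1
    by_cases hi : i < n - 2
    · rw [List.getElem_append_left (by simpa using hi)]
      simp only [List.getElem_ofFn]
      congr 2
      omega
    · have hi' : i = n - 2 := by omega
      subst hi'
      rw [List.getElem_append_right (by simp)]
      simp only [List.getElem_ofFn, List.length_ofFn, Nat.sub_self, List.getElem_cons_zero]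
      rw [← ofNat_add_n x]
      congr 2
      omega

theorem ofFn_cons (A : Fin n → Lb) (hn : 2 ≤ n) (x : ℕ) :
    List.ofFn (fun i : Fin n => A (i + Fin.ofNat n x)) = A (Fin.ofNat n x) :: LL A x := by
  unfold LL
  refine List.ext_getElem ?_ ?_
  · simp only [List.length_ofFn, List.length_cons]; omega
  · intro i h1 h2
    simp only [List.length_ofFn] at h1
    have e : (⟨i, h1⟩ : Fin n) = Fin.ofNat n i := (ofNat_val (⟨i, h1⟩ : Fin n)).symm
    cases i with
    | zero =>
      simp only [List.getElem_ofFn, List.getElem_cons_zero]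
      rw [e, ofNat_add, zero_add]
    | succ i =>
      simp only [List.getElem_ofFn, List.getElem_cons_succ]
      rw [e, ofNat_add]
      congr 2
      omega

end

theorem suffix012 {v : List (Fin 3)} (h : v <:+ [0, 1, 2]) (h2 : (2 : Fin 3) ∉ v) : v = [] := by
  obtain ⟨t, ht⟩ := h
  rcases List.eq_nil_or_concat v with h | ⟨l, a, h⟩
  · exact h
  · exfalso
    rw [h, List.concat_eq_append, ← List.append_assoc] at ht
    have e : ([0, 1, 2] : List (Fin 3)) = [0, 1] ++ [2] := rfl
    rw [e] at ht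
    have := (List.append_inj' ht rfl).2
    simp only [List.cons.injEq, and_true] at this
    apply h2
    rw [h, this]
    simp

end

end Pool.Agent.XQ.GI.H25

namespace Pool.Agent.XQ.GI

open H25

open Classical in
/-- module GI_TEO -/
theorem teo (lst : LstStatement) (cmb : CmbStatement) : TeoStatement := by
  intro n _ χ A hn hR h0 h2 hNl
  -- patterns
  set D : ℕ → Finset (Fin 3) := fun i => vs (A (Fin.ofNat n i)) with hD
  have P : Pat n D := by
    refine ⟨fun i => ?_, ?_, ?_, ?_⟩
    · simp only [hD, ofNat_add_n]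
    · intro x y z w hxy hyz hzw hw k1 k2 k3 k4
      have := hNl (Fin.ofNat n x) (y - x) (z - x) (w - x) (by omega) (by omega) (by omega)
        (by omega) k1
      rw [ofNat_add, ofNat_add, ofNat_add, Nat.add_sub_cancel' hxy.le,
        Nat.add_sub_cancel' (hxy.trans hyz).le, Nat.add_sub_cancel' ((hxy.trans hyz).trans hzw).le]
        at this
      exact this k2 k3 k4
    · intro x k1 k2
      have e1 := (h0 _ k1).1
      have e2 := (h2 _ k2).1
      rw [e1] at e2
      exact one_ne_zero e2
    · intro x k1 k2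
      have e1 := (h2 _ k1).2
      have e2 := (h0 (Fin.ofNat n (x + 1)) k2).1
      rw [ofNat_succ] at e2
      rw [e1] at e2
      exact zero_ne_one e2
  have hRL : ∀ x, ∀ f ∈ LL A x, Rz f := by
    intro x f hf
    obtain ⟨j, rfl⟩ := mem_LL hf
    exact hR j
  have hRM : ∀ x, ∀ f ∈ MM A x, Rz f := by
    intro x f hf
    exact hRL x f (by rw [LL_cons A hn]; exact List.mem_cons_of_mem _ hf)
  have hdL : ∀ x, ∀ f ∈ LL A x, ¬ (0 ∈ vs f ∧ 2 ∈ vs f) := by
    intro x f hf
    obtain ⟨j, rfl⟩ := mem_LL hf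
    rintro ⟨k1, k2⟩
    have e1 := (h0 _ k1).1
    have e2 := (h2 _ k2).1
    rw [e1] at e2
    exact one_ne_zero e2
  set FF : ℕ → Prop := fun x => FO A (Fin.ofNat n x) with hFF
  have FFi : ∀ x, FF x ↔ (LL A x).foldl (fun v f => f v) w012 = em := fun x => FO_iff A x
  have FFn : ∀ x, FF (x + n) ↔ FF x := fun x => by simp only [hFF, ofNat_add_n]
  have FFk : ∀ k x, FF (x + n * k) ↔ FF x := by
    intro k
    induction k with
    | zero => intro x; simp
    | succ k ih =>
      intro x
      rw [Nat.mul_succ, ← Nat.add_assoc, FFn, ih]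
  -- changes
  have ch1 : ∀ x, FF x → ¬ FF (x + 1) → 0 ∈ D (x + 1) := by
    intro x k1 k2
    by_contra k3
    apply k2
    rw [FFi] at k1 ⊢
    rw [LL_cons A hn, List.foldl_cons, stop lst (hR _) (v := w012) rfl k3] at k1
    rw [LL_append A hn, List.foldl_append, k1]
    exact lst.2.1 _ (hR _)
  have ch2 : ∀ x, ¬ FF x → FF (x + 1) → 2 ∈ D x := by
    intro x k1 k2
    by_contra k3
    apply k1
    rw [FFi] at k2 ⊢
    rw [LL_append A hn, List.foldl_append] at k2
    have k4 : (2 : Fin 3) ∉ ((MM A x).foldl (fun v f => f v) w012).1 := by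
      intro k5
      have := keep lst (hR (Fin.ofNat n x)) k5 k3
      simp only [List.foldl_cons, List.foldl_nil] at k2
      rw [k2] at this
      simp [em] at this
    have k5 := suffix012 (foldSuf' lst (MM A x) w012 (hRM x)) k4
    rw [LL_cons A hn, List.foldl_cons]
    have k6 := foldSuf lst (MM A x) _ w012 (hRM x) (lst.2.2.1 _ (hR (Fin.ofNat n (x + 1))) w012)
    rw [k5] at k6
    exact em_of (List.suffix_nil.1 k6)
  -- the sum
  set f : Fin n → ℝ := fun j => if FO A j then 1 else 0 with hf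
  have hk : ∀ j : Fin n, ∃ x : ℕ, j - 1 = Fin.ofNat n x ∧ j = Fin.ofNat n (x + 1) := by
    intro j
    refine ⟨(j - 1).1, (ofNat_val _).symm, ?_⟩
    rw [ofNat_succ, ofNat_val, sub_add_cancel]
  have hs1 : ∑ j, (χ (j + 1) - χ j) * f j = ∑ j, χ j * (f (j - 1) - f j) := by
    have e1 : ∑ j, χ (j + 1) * f j = ∑ j, χ j * f (j - 1) := by
      have := Equiv.sum_comp (Equiv.addRight (1 : Fin n)) (fun j => χ j * f (j - 1))
      simp only [Equiv.coe_addRight, add_sub_cancel_right] at this
      exact this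
    simp only [sub_mul, mul_sub, Finset.sum_sub_distrib, e1]
  have hs2 : ∀ j, χ j * (f (j - 1) - f j) = if (FO A (j - 1) ∧ ¬ FO A j) then 1 else 0 := by
    intro j
    obtain ⟨x, e1, e2⟩ := hk j
    by_cases k1 : FO A (j - 1) <;> by_cases k2 : FO A j
    · simp [hf, k1, k2]
    · have k3 := ch1 x (by rw [hFF]; simp only; rw [← e1]; exact k1)
        (by rw [hFF]; simp only; rw [← e2]; exact k2)
      simp only [hD, ← e2] at k3
      simp [hf, k1, k2, (h0 j k3).1]
    · have k3 := ch2 x (by rw [hFF]; simp only; rw [← e1]; exact k1)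
        (by rw [hFF]; simp only; rw [← e2]; exact k2)
      simp only [hD, ← e1] at k3
      have := (h2 _ k3).2
      rw [sub_add_cancel] at this
      simp [this, k1]
    · simp [hf, k1, k2]
  show ∑ j, (χ (j + 1) - χ j) * f j = _
  rw [hs1, Finset.sum_congr rfl fun j _ => hs2 j]
  obtain ⟨c1, c2, c3, c4, c5, c6, c7⟩ := cmb n A hR
  by_cases hLp : Lp (cp A)
  · rw [if_pos hLp]
    -- both letters occur
    have hvs : vs (cp A) = Finset.univ := ((lst.2.2.2.2.2.2.2.1) (cp A) c1).1 (Or.inl hLp)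
    obtain ⟨z, hz⟩ := (c2 0).1 (by rw [hvs]; exact Finset.mem_univ _)
    obtain ⟨w, hw⟩ := (c2 2).1 (by rw [hvs]; exact Finset.mem_univ _)
    have hz' : 0 ∈ D z.1 := by simp only [hD, ofNat_val]; exact hz
    have hw' : 2 ∈ D w.1 := by simp only [hD, ofNat_val]; exact hw
    have hz'' : 0 ∈ D (z.1 + n) := by rw [P.per]; exact hz'
    have hw'' : 2 ∈ D (w.1 + n) := by rw [P.per]; exact hw'
    have hzn := z.2
    have hwn := w.2
    obtain ⟨x0, _, hoff⟩ := P.off (z := z.1) (w := w.1 + n) (by omega) hz' hw''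
    obtain ⟨x1, g1, g2, hon⟩ := P.on (z := z.1 + n) (w := w.1) (by omega) hz'' hw'
    have F0 : ¬ FF x0 := by
      rw [FFi]
      intro h
      have := noread lst (s := 0) (t := 2) (by decide) (LL A x0) w012 (hRL x0)
        (pw A x0 _ hoff) (hdL x0) (by simp [w012])
      rw [h] at this
      simp [em] at this
    have F1 : FF x1 := by
      have hL2 := (c7 (Fin.ofNat n x1)).2 hLp
      have hcp : ∀ v, cp (fun i => A (i + Fin.ofNat n x1)) v
          = (A (Fin.ofNat n x1) :: LL A x1).foldl (fun v f => f v) v := by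
        intro v
        unfold cp
        rw [ofFn_cons A hn]
      have hRall : ∀ f ∈ A (Fin.ofNat n x1) :: LL A x1, Rz f := by
        intro f hf
        rcases List.mem_cons.1 hf with rfl | hf
        · exact hR _
        · exact hRL _ f hf
      have hno : ∀ v : Wd, [2, 0].Sublist v.1 →
          cp (fun i => A (i + Fin.ofNat n x1)) v ≠ em := by
        intro v hv h
        rw [hcp] at h
        have := noread lst (s := 2) (t := 0) (by decide) (A (Fin.ofNat n x1) :: LL A x1) v hRall
          ?_ ?_ hv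
        · rw [h] at this
          simp [em] at this
        · rw [List.pairwise_cons]
          exact ⟨fun g _ k => g2 k.1, pw A x1 _ hon⟩
        · intro f hf
          rcases List.mem_cons.1 hf with rfl | hf
          · exact fun k => g2 k.1
          · exact fun k => hdL x1 f hf ⟨k.2, k.1⟩
      rcases hL2 with h | h | h
      · rw [hcp, List.foldl_cons, stop lst (hR _) (v := w012) rfl g1] at h
        rw [FFi]
        exact h
      · exact absurd h (hno _ (by simp [w120]))
      · exact absurd h (hno _ (by simp [w201]))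
    -- existence of a switch
    obtain ⟨y, y1, _, y3, y4⟩ := least (fun x => ¬ FF x) (a := x1) (b := x0 + n * (x1 + 1))
      (by nlinarith) (by rw [FFk]; exact F0)
    have y5 : FF (y - 1) := by
      by_cases e : y - 1 = x1
      · rw [e]; exact F1
      · by_contra h
        exact y4 (y - 1) (by omega) (by omega) h
    have ey : y - 1 + 1 = y := by omega
    have hsw : FO A (Fin.ofNat n y - 1) ∧ ¬ FO A (Fin.ofNat n y) := by
      refine ⟨?_, y3⟩
      have : (Fin.ofNat n y - 1 : Fin n) = Fin.ofNat n (y - 1) := by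
        rw [sub_eq_iff_eq_add, ← ofNat_succ, ey]
      rw [this]
      exact y5
    -- uniqueness
    have huni : ∀ j1 j2 : Fin n, (FO A (j1 - 1) ∧ ¬ FO A j1) → (FO A (j2 - 1) ∧ ¬ FO A j2) →
        j1.1 < j2.1 → False := by
      rintro j1 j2 ⟨a1, a2⟩ ⟨b1, b2⟩ hlt
      have hj1 := j1.2
      have hj2 := j2.2
      have e1 : FF (j1.1 + n - 1) := by
        have : j1 - 1 = Fin.ofNat n (j1.1 + n - 1) := by
          rw [sub_eq_iff_eq_add, ← ofNat_succ]
          have : j1.1 + n - 1 + 1 = j1.1 + n := by omega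
          rw [this, ofNat_add_n, ofNat_val]
        rw [this] at a1
        exact a1
      have e2 : ¬ FF j1.1 := by simp only [hFF, ofNat_val]; exact a2
      have e3 : FF (j2.1 - 1) := by
        have : j2 - 1 = Fin.ofNat n (j2.1 - 1) := by
          rw [sub_eq_iff_eq_add, ← ofNat_succ]
          have : j2.1 - 1 + 1 = j2.1 := by omega
          rw [this, ofNat_val]
        rw [this] at b1
        exact b1
      have e4 : ¬ FF j2.1 := by simp only [hFF, ofNat_val]; exact b2
      have e5 : 0 ∈ D j1.1 := by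
        have := ch1 (j1.1 + n - 1) e1 (by
          have h : j1.1 + n - 1 + 1 = j1.1 + n := by omega
          rw [h, FFn]; exact e2)
        have h : j1.1 + n - 1 + 1 = j1.1 + n := by omega
        rw [h, P.per] at this
        exact this
      have e6 : 0 ∈ D j2.1 := by
        have := ch1 (j2.1 - 1) e3 (by
          have h : j2.1 - 1 + 1 = j2.1 := by omega
          rw [h]; exact e4)
        have h : j2.1 - 1 + 1 = j2.1 := by omega
        rw [h] at this
        exact this
      have hne : j1.1 ≠ j2.1 - 1 := by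
        intro h
        rw [h] at e2
        exact e2 e3
      obtain ⟨p, p1, p2, p3, p4⟩ := least FF (a := j1.1) (b := j2.1 - 1) (by omega) e3
      have p5 : ¬ FF (p - 1) := by
        by_cases e : p - 1 = j1.1
        · rw [e]; exact e2
        · exact p4 (p - 1) (by omega) (by omega)
      have p6 : 2 ∈ D (p - 1) := ch2 (p - 1) p5 (by
        have : p - 1 + 1 = p := by omega
        rw [this]; exact p3)
      have p7 : p - 1 ≠ j1.1 := by
        intro h
        rw [h] at p6
        exact P.dis _ e5 p6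
      have hne2 : j2.1 ≠ j1.1 + n - 1 := by
        intro h
        rw [← h] at e1
        exact e4 e1
      obtain ⟨q, q1, q2, q3, q4⟩ := least FF (a := j2.1) (b := j1.1 + n - 1) (by omega) e1
      have q5 : ¬ FF (q - 1) := by
        by_cases e : q - 1 = j2.1
        · rw [e]; exact e4
        · exact q4 (q - 1) (by omega) (by omega)
      have q6 : 2 ∈ D (q - 1) := ch2 (q - 1) q5 (by
        have : q - 1 + 1 = q := by omega
        rw [this]; exact q3)
      have q7 : q - 1 ≠ j2.1 := by
        intro h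
        rw [h] at q6
        exact P.dis _ e6 q6
      exact P.nl j1.1 (p - 1) j2.1 (q - 1) (by omega) (by omega) (by omega) (by omega) e5 p6 e6 q6
    rw [Finset.sum_eq_single (Fin.ofNat n y)]
    · rw [if_pos hsw]
    · intro j _ hj
      rw [if_neg]
      intro hjs
      rcases lt_trichotomy j.1 (Fin.ofNat n y).1 with h | h | h
      · exact huni _ _ hjs hsw h
      · exact hj (Fin.ext h)
      · exact huni _ _ hsw hjs h
    · intro h
      exact absurd (Finset.mem_univ _) h
  · rw [if_neg hLp]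
    refine Finset.sum_eq_zero fun j _ => ?_
    rw [if_neg]
    rintro ⟨h, _⟩
    exact hLp (c3 _ h)

end Pool.Agent.XQ.GI
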