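import Pool.Agent.Helper25_XQ.Cpt

/-!
Squad XQ, Part G, module UTT: a shortest body with two placements exists.
-/

set_option autoImplicit false

namespace Pool.Agent.XQ.H25

open MeasureTheory Complex Filter Topology Pool.Agent.H62T
open Pool.Agent.H16F (Sublin)
open Pool.Agent.AEU
open Pool.Agent.AEU.H25.Fin

/-- the hull of three contact points -/
theorem hull3 (vxx : VxxStatement) {X S : Finset HP} (hX : Pg X) {h : ℂ → ℝ} (hs : Sublin h)
    (hF : Fits X h) (hc : S.card = 3) (hS : S ⊆ touch X h) :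
    ∃ x : Fin (2 + 1) → ℂ, (∀ i, x i ∈ Cl X) ∧ (∀ w, hf x w ≤ h w) ∧ Sublin (hf x) ∧
      Fits X (hf x) ∧ S ⊆ touch X (hf x) := by
  classical
  obtain ⟨A, hA1, hA2, hA3⟩ := H20.contacts sup hs S hS
  have hAne : A.Nonempty := by
    have : S.Nonempty := Finset.card_pos.1 (by omega)
    obtain ⟨s, hs⟩ := this
    obtain ⟨a, ha, _⟩ := hA3 s hs
    exact ⟨a, ha⟩
  have vcl := (vxx X hX).2.2.2.2.2.2.1
  obtain ⟨x, hx1, hx2, hx3, hx4⟩ := H20.hull_of hul A hAne hA2 2 (by omega)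
  refine ⟨x, fun i => vcl h hF _ (hA2 _ (hx1 i)), hx2, hx3, H20.fits_of_le hx2 hF, ?_⟩
  intro s hs'
  obtain ⟨a, ha, hae⟩ := hA3 s hs'
  exact H20.touch_of_point (H20.touch_subset _ _ (hS hs')) (H20.fits_of_le hx2 hF) (hx4 a ha) hae

/-- fitting after an isometry is a closed condition -/
theorem isClosed_fits (Y : Finset HP) (g : Iso2) (m : ℕ) :
    IsClosed {x : Fin (m + 1) → ℂ | Fits Y (mb g (hf x))} := by
  have : {x : Fin (m + 1) → ℂ | Fits Y (mb g (hf x))} =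
      ⋂ s ∈ Y, {x : Fin (m + 1) → ℂ | mb g (hf x) s.1 ≤ s.2} := by
    ext x
    simp [Fits]
  rw [this]
  refine isClosed_biInter fun s _ => ?_
  simp only [mb]
  exact isClosed_le (((cnt m).1 _).add continuous_const) continuous_const

end Pool.Agent.XQ.H25

namespace Pool.Agent.XQ

open MeasureTheory Complex Filter Topology Pool.Agent.H62T
open Pool.Agent.H16F (Sublin)
open Pool.Agent.AEU
open Pool.Agent.AEU.H25.Fin (sup hul lam act cnt opn mixs)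

/-- module UTT -/
theorem utt (vxx : VxxStatement) : UttStatement := by
  classical
  intro X Y hX hY hex
  -- the finitely many isometries
  have hG : ∀ S : Finset HP, ∃ G : Finset Iso2, S ⊆ X → S.card = 3 →
      ∀ g, (∀ s ∈ S, mv g s ∈ Y) → g ∈ G := by
    intro S
    by_cases h : S ⊆ X ∧ S.card = 3
    · obtain ⟨G, _, hG⟩ := H25.finite_iso (Y := Y) vxx hX h.1 (by omega)
      exact ⟨G, fun _ _ => hG⟩
    · exact ⟨∅, fun h1 h2 => absurd ⟨h1, h2⟩ h⟩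
  choose G hG using hG
  set T : Finset (Σ _ : Finset HP, Iso2 × Iso2) :=
    ((X.powersetCard 3).sigma fun S => G S ×ˢ G S).filter (fun p =>
      (∀ s ∈ p.1, mv p.2.1 s ∈ Y) ∧ (∀ s ∈ p.1, mv p.2.2 s ∈ Y) ∧ p.2.1 ≠ p.2.2) with hT
  set K : Set (Fin (2 + 1) → ℂ) := ⋃ p ∈ T, ({x : Fin (2 + 1) → ℂ | ∀ i, x i ∈ Cl X} ∩
    ({x : Fin (2 + 1) → ℂ | p.1 ⊆ touch X (hf x)} ∩
      ({x : Fin (2 + 1) → ℂ | Fits Y (mb p.2.1 (hf x))} ∩
        {x : Fin (2 + 1) → ℂ | Fits Y (mb p.2.2 (hf x))}))) with hK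
  have hKc : IsCompact K := by
    refine T.isCompact_biUnion fun p hp => ?_
    have hp1 : p.1 ⊆ X := by
      have := (Finset.mem_filter.1 hp).1
      exact (Finset.mem_powersetCard.1 (Finset.mem_sigma.1 this).1).1
    exact (H25.isCompact_tuples vxx hX 2).inter_right
      ((H20.isClosed_touch cnt X p.1 hp1 2).inter
        ((H25.isClosed_fits Y p.2.1 2).inter (H25.isClosed_fits Y p.2.2 2)))
  -- reduction
  have hred : ∀ (g g' : Iso2) (S : Finset HP) (h : ℂ → ℝ), WP X Y g S h → WP X Y g' S h →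
      g ≠ g' → ∃ x ∈ K, AEU.lam (hf x) ≤ AEU.lam h := by
    intro g g' S h w w' hne
    obtain ⟨x, hx1, hx2, hx3, hx4, hx5⟩ := H25.hull3 vxx hX w.sub w.fits w.card w.tch
    have hSX : S ⊆ X := w.tch.trans (H20.touch_subset _ _)
    refine ⟨x, ?_, (lam.2.1 _ _ hx3 w.sub hx2).1⟩
    rw [hK]
    simp only [Set.mem_iUnion]
    refine ⟨⟨S, g, g'⟩, ?_, hx1, hx5, ?_, ?_⟩
    · rw [hT, Finset.mem_filter]
      refine ⟨?_, w.mem, w'.mem, hne⟩
      simp only [Finset.mem_sigma, Finset.mem_powersetCard, Finset.mem_product]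
      exact ⟨⟨hSX, w.card⟩, hG S hSX w.card g w.mem, hG S hSX w.card g' w'.mem⟩
    · exact H20.fits_of_le (H20.mb_le g hx2) w.fits'
    · exact H20.fits_of_le (H20.mb_le g' hx2) w'.fits'
  obtain ⟨g₀, g₀', S₀, h₀, w₀, w₀', hne₀⟩ := hex
  obtain ⟨x₀, hx₀, _⟩ := hred g₀ g₀' S₀ h₀ w₀ w₀' hne₀
  obtain ⟨x, hx, hmin⟩ := H20.exists_min cnt hKc ⟨x₀, hx₀⟩
  have hx' := hx
  rw [hK] at hx'
  simp only [Set.mem_iUnion] at hx'
  obtain ⟨⟨S, g, g'⟩, hp, h1, h2, h3, h4⟩ := hx'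
  obtain ⟨hp1, hp2, hp3, hp4⟩ := Finset.mem_filter.1 hp
  have hc : S.card = 3 := (Finset.mem_powersetCard.1 (Finset.mem_sigma.1 hp1).1).2
  have hF : Fits X (hf x) := ((mixs X).2.2 2 x h1).1
  refine ⟨g, g', S, hf x, ⟨⟨hc, (hul 2 x).1, hF, h3, h2, hp2⟩,
    ⟨hc, (hul 2 x).1, hF, h4, h2, hp3⟩, hp4⟩, ?_⟩
  rintro k k' S' h' ⟨w, w', hne⟩
  obtain ⟨y, hy, hy'⟩ := hred k k' S' h' w w' hne
  exact (hmin y hy).trans hy'

end Pool.Agent.XQ
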