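import Pool.Agent.Helper36_XQ.Stmt4

/-!
Squad XQ (MP_5b0138_an), part A4, modules UPB and LOW (helper25).
-/

set_option autoImplicit false

namespace Pool.Agent.XQ.K4.H25

open MeasureTheory Complex Filter Topology ProbabilityTheory Pool.Agent.H16Iso Pool.Agent.H62T
  Pool.Agent.H16F Pool.Agent.H38KL Pool.Agent.AEU Pool.Agent.XQ.K4
open scoped ENNReal NNReal

theorem meas_PA {n : ℕ} [NeZero n] (M E : Fin 3 → Finset (Fin 4)) (S : Fin 3 → Set ℂ)
    (hS : ∀ i, MeasurableSet (S i)) (a b : ℕ) (j : Fin n) (A : Fin n → Finset (Fin 4)) :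
    MeasurableSet {x : Fin n → ℂ | PA M E S a b (rot j x) A} := by
  have hm : ∀ (i : Fin 3) (k : Fin n), MeasurableSet {x : Fin n → ℂ | rot j x k ∈ S i} := by
    intro i k
    exact (measurable_pi_apply (X := fun _ : Fin n => ℂ) (k + j)) (hS i)
  unfold PA
  exact (hm 0 0).inter ((hm 1 _).inter ((hm 2 _).inter (MeasurableSet.const _)))

theorem meas_Gd {n : ℕ} [NeZero n] (M E : Fin 3 → Finset (Fin 4)) (S : Fin 3 → Set ℂ)
    (hS : ∀ i, MeasurableSet (S i)) (A : Fin n → Finset (Fin 4)) :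
    MeasurableSet {x : Fin n → ℂ | Gd M E S x A} := by
  have hS' : ∀ i, MeasurableSet (rvw S i) := by
    intro i
    unfold rvw
    fin_cases i
    · exact hS 0
    · exact hS 2
    · exact hS 1
  unfold Gd
  rw [Set.ofPred_exists]
  refine MeasurableSet.iUnion fun j => ?_
  rw [Set.ofPred_exists]
  refine MeasurableSet.iUnion fun a => ?_
  rw [Set.ofPred_exists]
  refine MeasurableSet.iUnion fun b => ?_
  exact (MeasurableSet.const _).inter ((MeasurableSet.const _).inter ((MeasurableSet.const _).inter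
    ((meas_PA M E S hS a b j (rot j A)).union (meas_PA (rv M) (rv E) (rvw S) hS' a b j (rot j A)))))

/-- module UPB -/
theorem upb (hUPP : UppStatement) : UpbStatement := by
  intro u h Mt Et M E S δ l R ε hu hS hδ hl hR hε hUp hLc
  constructor
  · intro n _ hn
    have hn0 : (0 : ℝ) < n := by exact_mod_cast Nat.pos_of_ne_zero (NeZero.ne n)
    obtain ⟨C, p, hC⟩ := ldm u h hu n (fun x A => Vis Mt Et A ∧ ¬ Gd M E S x A) δ l R ε
      (fun A => (MeasurableSet.const _).inter (meas_Gd M E S hS A).compl) hδ hl hR hε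
      (fun x A hxA hc hs => by
        by_contra hcon
        exact hxA.2 (hUp n x A hxA.1 hc hs (not_le.1 hcon)))
      (fun x A hxA hc => (hLc n x A hxA.1 hc).1)
    refine ⟨C, p, fun τ hτ hτ' => ?_⟩
    refine (hUPP u h n τ Mt Et M E S hu hτ hS).trans ?_
    have ht : 0 < ∑ i, τ i := Finset.sum_pos (fun i _ => hτ i) ⟨0, Finset.mem_univ _⟩
    have hmesh : ∀ j, τ j * l ^ 2 ≤ δ ^ 2 * ∑ i, τ i := by
      intro j
      calc τ j * l ^ 2 ≤ (2 * (∑ i, τ i) / n) * l ^ 2 :=
            mul_le_mul_of_nonneg_right (hτ' j) (by positivity)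
        _ = (2 * l ^ 2) * ((∑ i, τ i) / n) := by ring
        _ ≤ (δ ^ 2 * n) * ((∑ i, τ i) / n) := mul_le_mul_of_nonneg_right hn (by positivity)
        _ = δ ^ 2 * ∑ i, τ i := by field_simp
    have := hC τ hτ hmesh
    unfold Er
    gcongr
  · have hR' : 0 < 1 / R := by positivity
    obtain ⟨C, p, hC⟩ := ldm u h hu 1 (fun _ A => Vis Mt Et A) (1 / R) (1 / R) R ε
      (fun A => MeasurableSet.const _) hR' hR' hR hε
      (fun x A hxA hc _ => (hLc 1 x A hxA hc).2)
      (fun x A hxA hc => (hLc 1 x A hxA hc).1)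
    refine ⟨C, p, fun t ht => ?_⟩
    have h1 := blv u h 1 (fun _ => t) (fun _ => ht) Mt Et
    have h2 := hC (fun _ => t) (fun _ => ht) (fun _ => by
      rw [Fin.sum_univ_one, mul_comm])
    rw [Fin.sum_univ_one] at h1 h2
    unfold Vt Er
    rw [h1]
    exact h2

open Classical in
theorem Ms_split {n : ℕ} [NeZero n] (u : Fin 4 → ℂ) (h : Fin 4 → ℝ) (τ : Fin n → ℝ)
    (P Q : (Fin n → ℂ) → (Fin n → Finset (Fin 4)) → Prop)
    (V : (Fin n → Finset (Fin 4)) → Prop)
    (hPQ : ∀ x A, P x A → V A ∨ Q x A) :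
    Ms u h τ P ≤ Ms u h τ (fun _ A => V A) + Ms u h τ Q := by
  unfold Ms
  rw [← Finset.sum_add_distrib]
  refine Finset.sum_le_sum fun A _ => ?_
  have hm : Measurable (fun x : Fin n → ℂ => if V A then ENNReal.ofReal (wt u h τ x A) else 0) := by
    by_cases hV : V A
    · simp only [hV, if_true]
      exact ENNReal.measurable_ofReal.comp (wt_meas u h τ A)
    · simp only [hV, if_false]
      exact measurable_const
  rw [← lintegral_add_left hm]
  refine lintegral_mono fun x => ?_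
  by_cases hP : P x A
  · rcases hPQ x A hP with h1 | h1
    · simp only [hP, if_true, h1]
      exact le_self_add
    · simp only [hP, if_true, h1]
      exact le_add_self
  · simp [hP]

theorem sum_fin_three (N : ℕ) [NeZero (3 * N)] (τ : Fin (3 * N) → ℝ) :
    ∑ j, τ j = dur τ 0 N + dur τ N (2 * N) + dur τ (2 * N) (3 * N) := by
  unfold dur
  rw [Finset.sum_Ico_consecutive _ (by omega : 0 ≤ N) (by omega : N ≤ 2 * N),
    Finset.sum_Ico_consecutive _ (by omega : 0 ≤ 2 * N) (by omega : 2 * N ≤ 3 * N),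
    ← Finset.range_eq_Ico, Finset.sum_range (fun l => τ (Fin.ofNat (3 * N) l))]
  refine Finset.sum_congr rfl fun i _ => ?_
  congr 1
  apply Fin.ext
  simp [Fin.ofNat, Nat.mod_eq_of_lt i.isLt]

/-- module LOW -/
theorem low (hCUT : CutStatement) : LowStatement := by
  intro u h Mt Et M E S δ l R ε hu hS hSR hMt hδ hl hR hε hLo
  obtain ⟨N0, hN0⟩ := exists_nat_gt (l ^ 2 / δ ^ 2)
  set N : ℕ := N0 + 1 with hN
  have hNpos : 0 < N := by omega
  have hN' : l ^ 2 ≤ δ ^ 2 * N := by
    have h1 : l ^ 2 / δ ^ 2 ≤ N := by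
      rw [hN]; push_cast; linarith
    rw [div_le_iff₀ (by positivity)] at h1
    linarith
  have hNr : (0 : ℝ) < N := by exact_mod_cast hNpos
  haveI : NeZero (3 * N) := ⟨by omega⟩
  obtain ⟨C, p, hC⟩ := ldm u h hu (3 * N) (fun x A => PA M E S N (2 * N) x A ∧
      ∃ j, ¬ Disjoint (A j) Et) δ l R ε
    (fun A => by
      have h1 := meas_PA M E S hS N (2 * N) (0 : Fin (3 * N)) A
      have h2 : ∀ x : Fin (3 * N) → ℂ, rot (0 : Fin (3 * N)) x = x := by
        intro x
        funext i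
        unfold rot
        rw [add_zero]
      simp only [h2] at h1
      exact h1.inter (MeasurableSet.const _)) hδ hl hR hε
    (fun x A hxA hc hs => hLo (3 * N) N (2 * N) x A hNpos (by omega) (by omega) hxA.1 hc hs hxA.2)
    (fun x A hxA hc => by
      have h1 : ‖x 0‖ ≤ R := hSR _ hxA.1.1
      have h2 : 0 ≤ Ln u h x A := Finset.sum_nonneg fun j _ => bl_nonneg u h _ _ _
      nlinarith)
  refine ⟨C, p, fun s1 s2 s3 h1 h2 h3 => ?_⟩
  set τ : Fin (3 * N) → ℝ := fun j => if j.1 < N then s1 / N else if j.1 < 2 * N then s2 / N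
    else s3 / N with hτdef
  have hτ : ∀ j, 0 < τ j := by
    intro j
    simp only [hτdef]
    split_ifs <;> positivity
  have hval : ∀ l, l < 3 * N → (Fin.ofNat (3 * N) l).1 = l := by
    intro l hl
    simp [Fin.ofNat, Nat.mod_eq_of_lt hl]
  have d1 : dur τ 0 N = s1 := by
    unfold dur
    rw [Finset.sum_congr rfl (g := fun _ => s1 / N)]
    · rw [Finset.sum_const, Nat.card_Ico, nsmul_eq_mul, Nat.sub_zero]
      field_simp
    · intro l hl
      rw [Finset.mem_Ico] at hl
      simp only [hτdef]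
      rw [hval l (by omega), if_pos hl.2]
  have d2 : dur τ N (2 * N) = s2 := by
    unfold dur
    rw [Finset.sum_congr rfl (g := fun _ => s2 / N)]
    · rw [Finset.sum_const, Nat.card_Ico, nsmul_eq_mul, (by omega : 2 * N - N = N)]
      field_simp
    · intro l hl
      rw [Finset.mem_Ico] at hl
      simp only [hτdef]
      rw [hval l (by omega), if_neg (by omega), if_pos hl.2]
  have d3 : dur τ (2 * N) (3 * N) = s3 := by
    unfold dur
    rw [Finset.sum_congr rfl (g := fun _ => s3 / N)]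
    · rw [Finset.sum_const, Nat.card_Ico, nsmul_eq_mul, (by omega : 3 * N - 2 * N = N)]
      field_simp
    · intro l hl
      rw [Finset.mem_Ico] at hl
      simp only [hτdef]
      rw [hval l (by omega), if_neg (by omega), if_neg (by omega)]
  have hsum : ∑ j, τ j = s1 + s2 + s3 := by
    rw [sum_fin_three, d1, d2, d3]
  have hmesh : ∀ j, τ j * l ^ 2 ≤ δ ^ 2 * ∑ i, τ i := by
    intro j
    rw [hsum]
    have key : ∀ s : ℝ, 0 < s → s ≤ s1 + s2 + s3 → s / N * l ^ 2 ≤ δ ^ 2 * (s1 + s2 + s3) := by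
      intro s hs0 hs1
      calc s / N * l ^ 2 ≤ s / N * (δ ^ 2 * N) :=
            mul_le_mul_of_nonneg_left hN' (by positivity)
        _ = δ ^ 2 * s := by field_simp
        _ ≤ δ ^ 2 * (s1 + s2 + s3) := mul_le_mul_of_nonneg_left hs1 (by positivity)
    simp only [hτdef]
    split_ifs
    · exact key s1 h1 (by linarith)
    · exact key s2 h2 (by linarith)
    · exact key s3 h3 (by linarith)
  have e1 := hCUT u h (3 * N) τ M E S N (2 * N) hτ hNpos (by omega) (by omega) hS
  rw [d1, d2, d3] at e1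
  have e2 := blv u h (3 * N) τ hτ Mt Et
  rw [hsum] at e2
  have e3 := hC τ hτ hmesh
  rw [hsum] at e3
  unfold Vt Er
  rw [← e1, e2]
  refine (Ms_split u h τ (PA M E S N (2 * N)) (fun x A => PA M E S N (2 * N) x A ∧
      ∃ j, ¬ Disjoint (A j) Et) (fun A => Vis Mt Et A) ?_).trans ?_
  · intro x A hP
    by_cases hd : ∃ j, ¬ Disjoint (A j) Et
    · exact Or.inr ⟨hP, hd⟩
    · left
      push Not at hd
      refine ⟨fun s hs => ?_, hd⟩
      have hs' := hMt hs
      rw [Finset.mem_union, Finset.mem_union] at hs'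
      obtain ⟨-, -, -, ⟨g0, -⟩, ⟨g1, -⟩, g2, -⟩ := hP
      rcases hs' with (hs' | hs') | hs'
      · obtain ⟨l, -, hl⟩ := g0 s hs'
        exact ⟨_, hl⟩
      · obtain ⟨l, -, -, hl⟩ := g1 s hs'
        exact ⟨_, hl⟩
      · obtain ⟨l, -, -, hl⟩ := g2 s hs'
        exact ⟨_, hl⟩
  · gcongr

end Pool.Agent.XQ.K4.H25
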